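import Mathlib
import Pool.Agent.J4H26.AF.Coal

set_option autoImplicit false

/-! Coalescing random walks: the expectation of a function of the final positions. -/

namespace Pool.Agent.J4H26.KT

open Finset Filter Topology
open Pool.Agent.J4H26.AF (moves moves_pos flipc flipc_flipc flipc_mem sg sg_fin chi_zero pm pm_le pm_zero rep)

variable {k : ℕ}

/-- the expectation of `f` at the positions of coalescing walks after `s` steps -/
noncomputable def cw (f : (Fin k → ℤ) → ℝ) : ℕ → (Fin k → ℤ) → ℝ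
  | 0, z => f z
  | s + 1, z => (∑ p ∈ moves z, cw f s (fun i => z i + (p i : ℕ))) / #(moves z)

theorem cw_zero (f : (Fin k → ℤ) → ℝ) (z : Fin k → ℤ) : cw f 0 z = f z := rfl

theorem cw_succ (f : (Fin k → ℤ) → ℝ) (s : ℕ) (z : Fin k → ℤ) :
    cw f (s + 1) z = (∑ p ∈ moves z, cw f s (fun i => z i + (p i : ℕ))) / #(moves z) := rfl

theorem mpos (z : Fin k → ℤ) : (0 : ℝ) < #(moves z) := by exact_mod_cast moves_pos z

theorem cw_const (c : ℝ) (s : ℕ) : ∀ z : Fin k → ℤ, cw (fun _ => c) s z = c := by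
  induction s with
  | zero => intro z; rfl
  | succ s ih =>
    intro z
    rw [cw_succ, sum_congr rfl (fun p _ => ih _), sum_const, nsmul_eq_mul, mul_div_assoc, mul_comm,
      div_mul_cancel₀ _ (mpos z).ne']

theorem cw_add (f g : (Fin k → ℤ) → ℝ) (s : ℕ) : ∀ z, cw (fun u => f u + g u) s z = cw f s z + cw g s z := by
  induction s with
  | zero => intro z; rfl
  | succ s ih =>
    intro z
    rw [cw_succ, cw_succ, cw_succ, sum_congr rfl (fun p _ => ih _), sum_add_distrib, add_div]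

theorem cw_smul (c : ℝ) (f : (Fin k → ℤ) → ℝ) (s : ℕ) : ∀ z, cw (fun u => c * f u) s z = c * cw f s z := by
  induction s with
  | zero => intro z; rfl
  | succ s ih =>
    intro z
    rw [cw_succ, cw_succ, sum_congr rfl (fun p _ => ih _), ← mul_sum, mul_div_assoc]

theorem cw_sum {ι : Type*} (S : Finset ι) (f : ι → (Fin k → ℤ) → ℝ) (s : ℕ) (z : Fin k → ℤ) :
    cw (fun u => ∑ i ∈ S, f i u) s z = ∑ i ∈ S, cw (f i) s z := by
  classical
  induction S using Finset.induction_on with
  | empty => simp only [sum_empty]; exact cw_const 0 s z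
  | insert a S ha ih => rw [sum_insert ha, ← ih, ← cw_add]; congr 1; funext u; rw [sum_insert ha]

/-- moves keep the order -/
theorem mono_move {z : Fin k → ℤ} (hz : Monotone z) {p : Fin k → Fin 2} (hp : p ∈ moves z) :
    Monotone (fun i => z i + ((p i : ℕ) : ℤ)) := by
  intro i j hij
  unfold moves at hp
  rw [mem_filter] at hp
  simp only
  rcases (hz hij).lt_or_eq with h2 | h2
  · have h3 := (p i).isLt
    omega
  · rw [h2, hp.2 i j h2]

theorem cw_mono_on {f g : (Fin k → ℤ) → ℝ} (h : ∀ z, Monotone z → f z ≤ g z) (s : ℕ) :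
    ∀ z, Monotone z → cw f s z ≤ cw g s z := by
  induction s with
  | zero => intro z hz; exact h z hz
  | succ s ih =>
    intro z hz
    rw [cw_succ, cw_succ]
    exact div_le_div_of_nonneg_right (sum_le_sum fun p hp => ih _ (mono_move hz hp)) (mpos z).le

theorem cw_mono {f g : (Fin k → ℤ) → ℝ} (h : ∀ z, f z ≤ g z) (s : ℕ) : ∀ z, cw f s z ≤ cw g s z := by
  induction s with
  | zero => intro z; exact h z
  | succ s ih =>
    intro z
    rw [cw_succ, cw_succ]
    exact div_le_div_of_nonneg_right (sum_le_sum fun p _ => ih _) (mpos z).le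

theorem cw_abs {f g : (Fin k → ℤ) → ℝ} (h : ∀ z, |f z| ≤ g z) (s : ℕ) (z : Fin k → ℤ) : |cw f s z| ≤ cw g s z := by
  rw [abs_le]
  constructor
  · have h1 : cw (fun u => -1 * g u) s z ≤ cw f s z := cw_mono (fun u => by have := (abs_le.1 (h u)).1; linarith) s z
    rw [cw_smul] at h1
    linarith
  · exact cw_mono (fun u => (abs_le.1 (h u)).2) s z

/-- means of functions of one or two moves -/
theorem avg_one (z : Fin k → ℤ) (i : Fin k) (h : ℕ → ℝ) :
    (∑ p ∈ moves z, h (p i : ℕ)) / #(moves z) = (h 0 + h 1) / 2 := by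
  have e : ∀ p ∈ moves z, h (p i : ℕ) = (h 0 + h 1) / 2 + (h 1 - h 0) / 2 * ∏ j ∈ ({i} : Finset (Fin k)), sg (p j : ℕ) := by
    intro p _
    rw [prod_singleton]
    have := (p i).isLt
    rcases (show (p i : ℕ) = 0 ∨ (p i : ℕ) = 1 by omega) with h1 | h1
    · rw [h1]; unfold sg; push_cast; ring
    · rw [h1]; unfold sg; push_cast; ring
  rw [sum_congr rfl e, sum_add_distrib, ← mul_sum, chi_zero (mem_singleton_self i) (fun j hj _ => by simpa using hj), mul_zero,
    add_zero, sum_const, nsmul_eq_mul, mul_div_assoc, mul_comm, div_mul_cancel₀ _ (mpos z).ne']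

theorem avg_two (z : Fin k → ℤ) {i j : Fin k} (hij : z i ≠ z j) (h : ℕ → ℕ → ℝ) :
    (∑ p ∈ moves z, h (p i : ℕ) (p j : ℕ)) / #(moves z) = (h 0 0 + h 0 1 + h 1 0 + h 1 1) / 4 := by
  have hne : i ≠ j := fun e => hij (by rw [e])
  have e : ∀ p ∈ moves z, h (p i : ℕ) (p j : ℕ) = (h 0 0 + h 0 1 + h 1 0 + h 1 1) / 4 +
      (h 1 0 + h 1 1 - h 0 0 - h 0 1) / 4 * ∏ l ∈ ({i} : Finset (Fin k)), sg (p l : ℕ) +
      (h 0 1 + h 1 1 - h 0 0 - h 1 0) / 4 * ∏ l ∈ ({j} : Finset (Fin k)), sg (p l : ℕ) +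
      (h 0 0 + h 1 1 - h 0 1 - h 1 0) / 4 * ∏ l ∈ ({i, j} : Finset (Fin k)), sg (p l : ℕ) := by
    intro p _
    rw [prod_singleton, prod_singleton, prod_pair hne]
    have h1 := (p i).isLt
    have h2 := (p j).isLt
    rcases (show (p i : ℕ) = 0 ∨ (p i : ℕ) = 1 by omega) with h1 | h1 <;>
      rcases (show (p j : ℕ) = 0 ∨ (p j : ℕ) = 1 by omega) with h2 | h2 <;>
      · rw [h1, h2]; unfold sg; push_cast; ring
  have c1 : ∑ p ∈ moves z, ∏ l ∈ ({i, j} : Finset (Fin k)), sg (p l : ℕ) = 0 := by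
    apply chi_zero (i := i) (by simp)
    intro l hl hz
    rw [mem_insert, mem_singleton] at hl
    rcases hl with rfl | rfl
    · rfl
    · exact absurd hz.symm hij
  rw [sum_congr rfl e, sum_add_distrib, sum_add_distrib, sum_add_distrib, ← mul_sum, ← mul_sum, ← mul_sum, c1,
    chi_zero (mem_singleton_self i) (fun j hj _ => by simpa using hj),
    chi_zero (mem_singleton_self j) (fun j hj _ => by simpa using hj), mul_zero, mul_zero, mul_zero,
    add_zero, add_zero, add_zero, sum_const, nsmul_eq_mul, mul_div_assoc, mul_comm, div_mul_cancel₀ _ (mpos z).ne']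

/-- one walk -/
noncomputable def sw (g : ℤ → ℝ) : ℕ → ℤ → ℝ
  | 0, d => g d
  | s + 1, d => (sw g s d + sw g s (d + 1)) / 2

theorem cw_single (g : ℤ → ℝ) (i : Fin k) (s : ℕ) : ∀ z : Fin k → ℤ, cw (fun u => g (u i)) s z = sw g s (z i) := by
  induction s with
  | zero => intro z; rfl
  | succ s ih =>
    intro z
    rw [cw_succ, sum_congr rfl (fun p _ => ih _)]
    have := avg_one z i (fun n => sw g s (z i + (n : ℕ)))
    rw [this]
    simp only [sw, Nat.cast_zero, add_zero, Nat.cast_one]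

theorem sw_sq (c : ℝ) (s : ℕ) : ∀ d : ℤ, sw (fun x => (2 * (x : ℝ) - c) ^ 2) s d = (2 * (d : ℝ) + s - c) ^ 2 + s := by
  induction s with
  | zero => intro d; simp [sw]
  | succ s ih => intro d; simp only [sw]; rw [ih, ih]; push_cast; ring

theorem sw_nonneg {g : ℤ → ℝ} (h : ∀ x, 0 ≤ g x) (s : ℕ) : ∀ d, 0 ≤ sw g s d := by
  induction s with
  | zero => intro d; exact h d
  | succ s ih => intro d; simp only [sw]; have := ih d; have := ih (d + 1); linarith

theorem sw_mono {g g' : ℤ → ℝ} (h : ∀ x, g x ≤ g' x) (s : ℕ) : ∀ d, sw g s d ≤ sw g' s d := by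
  induction s with
  | zero => intro d; exact h d
  | succ s ih => intro d; simp only [sw]; have := ih d; have := ih (d + 1); linarith

theorem sw_rep (g : ℤ → ℝ) (s : ℕ) (d : ℤ) : sw g s d = ∑ l ∈ range (s + 1), pm s l * g (d + l) := by
  have h := rep (G := fun n d => sw g n (-d)) (fun n d => by
    simp only [sw]
    rw [show -(d - 1) = -d + 1 by ring]) s 0 (-d)
  simp only [neg_neg, zero_add] at h
  rw [h]
  apply sum_congr rfl
  intro l _
  simp only [sw]
  rw [show -(-d - (l : ℤ)) = d + l by ring]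

theorem tail_single (i : Fin k) {s : ℕ} (hs : 1 ≤ s) {M : ℝ} (hM : 0 < M) (z : Fin k → ℤ) :
    cw (fun u => if 2 * M * √ (s : ℝ) ≤ |2 * (u i : ℝ) - (2 * z i + s)| then 1 else 0) s z ≤ 1 / (4 * M ^ 2) := by
  have hs0 : (0 : ℝ) < s := by exact_mod_cast hs
  have hq : √ (s : ℝ) ^ 2 = s := Real.sq_sqrt hs0.le
  have h1 : cw (fun u => if 2 * M * √ (s : ℝ) ≤ |2 * (u i : ℝ) - (2 * z i + s)| then 1 else 0) s z ≤
      cw (fun u => (fun x : ℤ => 1 / (4 * M ^ 2 * s) * (2 * (x : ℝ) - (2 * z i + s)) ^ 2) (u i)) s z := by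
    apply cw_mono
    intro u
    simp only
    split_ifs with h
    · have h2 : (2 * M * √ (s : ℝ)) ^ 2 ≤ (2 * (u i : ℝ) - (2 * z i + s)) ^ 2 := by
        rw [← sq_abs (2 * (u i : ℝ) - (2 * z i + s))]
        exact pow_le_pow_left₀ (by positivity) h 2
      rw [div_mul_eq_mul_div, one_mul, le_div_iff₀ (by positivity)]
      nlinarith
    · positivity
  refine h1.trans ?_
  rw [cw_single (fun x : ℤ => 1 / (4 * M ^ 2 * s) * (2 * (x : ℝ) - (2 * z i + s)) ^ 2) i s z]
  have e : sw (fun x : ℤ => 1 / (4 * M ^ 2 * s) * (2 * (x : ℝ) - (2 * z i + s)) ^ 2) s (z i) =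
      1 / (4 * M ^ 2 * s) * sw (fun x : ℤ => (2 * (x : ℝ) - (2 * z i + s)) ^ 2) s (z i) := by
    have gen : ∀ (c : ℝ) (g : ℤ → ℝ) (n : ℕ) (d : ℤ), sw (fun x => c * g x) n d = c * sw g n d := by
      intro c g n
      induction n with
      | zero => intro d; rfl
      | succ n ih => intro d; simp only [sw]; rw [ih, ih]; ring
    exact gen _ _ _ _
  rw [e, sw_sq]
  have : (2 * ((z i : ℤ) : ℝ) + s - (2 * (z i : ℝ) + s)) ^ 2 + (s : ℝ) = s := by ring
  rw [this, div_mul_eq_mul_div, one_mul]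
  apply le_of_eq
  field_simp

/-- two walks which have not met -/
theorem cw_pair (g : ℤ → ℝ) (hg : ∀ x, 0 ≤ g x) {i j : Fin k} (s : ℕ) : ∀ z : Fin k → ℤ,
    cw (fun u => if u i = u j then 0 else g (u j - u i)) s z ≤
      if z i = z j then 0 else sw g (2 * s) (z j - z i - s) := by
  induction s with
  | zero => intro z; simp only [cw_zero, mul_zero, sw, Nat.cast_zero, sub_zero]; exact le_rfl
  | succ s ih =>
    intro z
    rw [cw_succ]
    split_ifs with hz
    · have : ∀ p ∈ moves z, cw (fun u => if u i = u j then 0 else g (u j - u i)) s (fun l => z l + (p l : ℕ)) ≤ 0 := by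
        intro p hp
        have h1 := ih (fun l => z l + (p l : ℕ))
        unfold moves at hp
        rw [mem_filter] at hp
        rw [hp.2 i j hz, hz, if_pos rfl] at h1
        exact h1
      exact div_nonpos_of_nonpos_of_nonneg (sum_nonpos this) (mpos z).le
    · have h1 : ∀ p ∈ moves z, cw (fun u => if u i = u j then 0 else g (u j - u i)) s (fun l => z l + (p l : ℕ)) ≤
          (fun a b : ℕ => sw g (2 * s) (z j + b - (z i + a) - s)) (p i : ℕ) (p j : ℕ) := by
        intro p _
        refine (ih _).trans ?_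
        simp only
        split_ifs
        · exact sw_nonneg hg _ _
        · exact le_rfl
      refine (div_le_div_of_nonneg_right (sum_le_sum h1) (mpos z).le).trans (le_of_eq ?_)
      rw [avg_two z hz (fun a b : ℕ => sw g (2 * s) (z j + b - (z i + a) - s)), show 2 * (s + 1) = 2 * s + 1 + 1 by ring]
      simp only [sw]
      push_cast
      rw [show z j + 0 - (z i + 0) - (s : ℤ) = z j - z i - (s + 1) + 1 by ring,
        show z j + 1 - (z i + 0) - (s : ℤ) = z j - z i - (s + 1) + 1 + 1 by ring,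
        show z j + 0 - (z i + 1) - (s : ℤ) = z j - z i - (s + 1) by ring,
        show z j + 1 - (z i + 1) - (s : ℤ) = z j - z i - (s + 1) + 1 by ring]
      ring

theorem sw_ind_le {s : ℕ} (hs : 1 ≤ s) (n : ℕ) (d : ℤ) :
    sw (fun x => if |x| ≤ n then (1 : ℝ) else 0) s d ≤ (2 * n + 1) / √ (s : ℝ) := by
  rw [sw_rep]
  have e : ∀ l ∈ range (s + 1), pm s (l : ℕ) * (if |d + (l : ℤ)| ≤ n then (1 : ℝ) else 0) =
      ∑ m ∈ Icc (-(n : ℤ)) n, if m = d + l then pm s (m - d) else 0 := by
    intro l _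
    split_ifs with h
    · rw [abs_le] at h
      rw [sum_ite_eq' (Icc (-(n : ℤ)) n) (d + (l : ℤ)) (fun m => pm s (m - d)), if_pos (mem_Icc.2 h), mul_one]
      congr 1
      ring
    · rw [mul_zero, sum_ite_eq' (Icc (-(n : ℤ)) n) (d + (l : ℤ)) (fun m => pm s (m - d)), if_neg]
      rw [mem_Icc, ← abs_le]
      exact h
  rw [sum_congr rfl e, sum_comm]
  have hpos : 0 < √ (s : ℝ) := Real.sqrt_pos.2 (by exact_mod_cast hs)
  have h1 : ∀ m ∈ Icc (-(n : ℤ)) n, (∑ l ∈ range (s + 1), if m = d + (l : ℤ) then pm s (m - d) else 0) ≤ 1 / √ (s : ℝ) := by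
    intro m _
    by_cases h : ∃ l ∈ range (s + 1), m = d + (l : ℤ)
    · obtain ⟨l₀, hl₀, hm⟩ := h
      rw [sum_eq_single l₀]
      · rw [if_pos hm]; exact pm_le hs _
      · intro l _ hl
        rw [if_neg]
        intro h2
        apply hl
        omega
      · intro h2; exact absurd hl₀ h2
    · rw [sum_eq_zero]
      · positivity
      · intro l hl
        rw [if_neg]
        exact fun h2 => h ⟨l, hl, h2⟩
  refine (sum_le_sum h1).trans (le_of_eq ?_)
  rw [sum_const, Int.card_Icc, nsmul_eq_mul]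
  have : ((((n : ℤ) + 1 - -(n : ℤ)).toNat : ℕ) : ℝ) = 2 * n + 1 := by
    have : ((n : ℤ) + 1 - -(n : ℤ)).toNat = 2 * n + 1 := by omega
    rw [this]; push_cast; ring
  rw [this]; ring

/-- walks which have not met are rarely close -/
theorem pair_close {s : ℕ} (hs : 1 ≤ s) (i j : Fin k) (n : ℕ) (z : Fin k → ℤ) :
    cw (fun u => if u i ≠ u j ∧ |u j - u i| ≤ n then (1 : ℝ) else 0) s z ≤ (2 * n + 1) / √ (s : ℝ) := by
  have hpos : 0 < √ (s : ℝ) := Real.sqrt_pos.2 (by exact_mod_cast hs)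
  have h1 : cw (fun u => if u i ≠ u j ∧ |u j - u i| ≤ n then (1 : ℝ) else 0) s z ≤
      cw (fun u => if u i = u j then 0 else (fun x : ℤ => if |x| ≤ n then (1 : ℝ) else 0) (u j - u i)) s z := by
    apply cw_mono
    intro u
    by_cases h : u i = u j
    · rw [if_neg (fun hh => hh.1 h), if_pos h]
    · rw [if_neg h]
      by_cases h2 : |u j - u i| ≤ n
      · rw [if_pos ⟨h, h2⟩]; simp [h2]
      · rw [if_neg (fun hh => h2 hh.2)]; simp [h2]
  refine h1.trans ((cw_pair (i := i) (j := j) (fun x : ℤ => if |x| ≤ n then (1 : ℝ) else 0)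
    (fun x => by split_ifs <;> norm_num) s z).trans ?_)
  split_ifs with h
  · positivity
  · refine (sw_ind_le (by omega : 1 ≤ 2 * s) n _).trans ?_
    apply div_le_div_of_nonneg_left (by positivity) hpos
    apply Real.sqrt_le_sqrt
    push_cast
    have : (0 : ℝ) ≤ s := by positivity
    linarith

/-- relabelling -/
theorem moves_perm (σ : Equiv.Perm (Fin k)) (z : Fin k → ℤ) (F : (Fin k → Fin 2) → ℝ) :
    ∑ p ∈ moves (fun i => z (σ i)), F p = ∑ p ∈ moves z, F (fun i => p (σ i)) := by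
  apply sum_bij' (fun p _ => fun i => p (σ.symm i)) (fun p _ => fun i => p (σ i))
  · intro p hp
    unfold moves at hp ⊢
    rw [mem_filter] at hp ⊢
    refine ⟨mem_univ _, fun i j hij => ?_⟩
    apply hp.2
    simpa using hij
  · intro p hp
    unfold moves at hp ⊢
    rw [mem_filter] at hp ⊢
    exact ⟨mem_univ _, fun i j hij => hp.2 _ _ hij⟩
  · intro p _; funext i; simp
  · intro p _; funext i; simp
  · intro p _; congr 1; funext i; simp

theorem cw_perm (σ : Equiv.Perm (Fin k)) (f : (Fin k → ℤ) → ℝ) (s : ℕ) : ∀ z : Fin k → ℤ,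
    cw f s (fun i => z (σ i)) = cw (fun u => f (fun i => u (σ i))) s z := by
  induction s with
  | zero => intro z; rfl
  | succ s ih =>
    intro z
    rw [cw_succ, cw_succ]
    have hc : ((#(moves (fun i => z (σ i))) : ℕ) : ℝ) = #(moves z) := by
      have := moves_perm σ z (fun _ => 1)
      simpa using this
    rw [hc, moves_perm]
    congr 1
    apply sum_congr rfl
    intro p _
    exact ih (fun i => z i + (p i : ℕ))

end Pool.Agent.J4H26.KT
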