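import Mathlib
import Pool.Agent.J4H26.KT.A

set_option autoImplicit false

/-! From distribution functions to bounded Lipschitz functions. -/

namespace Pool.Agent.J4H26.KT

open Finset Filter Topology

/-- an expectation -/
structure IsE {Ω : Type*} (E : (Ω → ℝ) → ℝ) : Prop where
  add : ∀ f g : Ω → ℝ, E (fun u => f u + g u) = E f + E g
  smul : ∀ (c : ℝ) (f : Ω → ℝ), E (fun u => c * f u) = c * E f
  mono : ∀ f g : Ω → ℝ, (∀ u, f u ≤ g u) → E f ≤ E g
  one : E (fun _ => 1) = 1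

namespace IsE

variable {Ω Ω' : Type*} {E : (Ω → ℝ) → ℝ}

theorem push (h : IsE E) (U : Ω → Ω') : IsE (fun f : Ω' → ℝ => E (fun ω => f (U ω))) where
  add f g := h.add _ _
  smul c f := h.smul _ _
  mono f g hfg := h.mono _ _ (fun u => hfg _)
  one := h.one

theorem zero (h : IsE E) : E (fun _ => 0) = 0 := by
  have := h.smul 0 (fun _ => 0)
  simpa using this

theorem const (h : IsE E) (c : ℝ) : E (fun _ => c) = c := by
  have := h.smul c (fun _ => 1)
  rw [h.one] at this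
  simpa using this

theorem neg (h : IsE E) (f : Ω → ℝ) : E (fun u => -f u) = -E f := by
  have := h.smul (-1) f
  simpa using this

theorem sub (h : IsE E) (f g : Ω → ℝ) : E (fun u => f u - g u) = E f - E g := by
  have := h.add f (fun u => -g u)
  rw [h.neg] at this
  simpa [sub_eq_add_neg] using this

theorem sum (h : IsE E) {ι : Type*} (S : Finset ι) (f : ι → Ω → ℝ) : E (fun u => ∑ i ∈ S, f i u) = ∑ i ∈ S, E (f i) := by
  classical
  induction S using Finset.induction_on with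
  | empty => simp only [sum_empty]; exact h.zero
  | insert a S ha ih =>
    rw [sum_insert ha, ← ih, ← h.add]
    congr 1; funext u; rw [sum_insert ha]

theorem abs_le (h : IsE E) {f g : Ω → ℝ} (hfg : ∀ u, |f u| ≤ g u) : |E f| ≤ E g := by
  rw [_root_.abs_le]
  constructor
  · have := h.mono _ _ (fun u => (_root_.abs_le.1 (hfg u)).1)
    rw [h.neg] at this
    exact this
  · exact h.mono _ _ (fun u => (_root_.abs_le.1 (hfg u)).2)

theorem nonneg (h : IsE E) {f : Ω → ℝ} (hf : ∀ u, 0 ≤ f u) : 0 ≤ E f := by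
  have := h.mono _ _ hf
  rw [h.zero] at this
  exact this

end IsE

variable {k : ℕ}

/-- indicator of the orthant below `y` -/
noncomputable def ind (y : Fin k → ℤ) (u : Fin k → ℤ) : ℝ := if ∀ i, u i ≤ y i then 1 else 0

/-- a corner of a cell -/
def yv (h : ℕ) (c : Fin k → ℤ) (t : Finset (Fin k)) : Fin k → ℤ := fun i => h * (c i + if i ∈ t then 1 else 0) - 1

/-- indicator of a cell -/
noncomputable def cin (h : ℕ) (c : Fin k → ℤ) (u : Fin k → ℤ) : ℝ := if ∀ i, u i / h = c i then 1 else 0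

theorem prod_dif_exp (f g : Fin k → ℝ) : ∏ i, (f i - g i) =
    ∑ t : Finset (Fin k), (-1) ^ #(univ \ t) * ∏ i, (if i ∈ t then f i else g i) := by
  have h1 := Finset.prod_add f (fun i => -g i) (univ : Finset (Fin k))
  simp only [← sub_eq_add_neg] at h1
  rw [h1, powerset_univ]
  apply sum_congr rfl
  intro t _
  have e1 : ∏ i ∈ univ \ t, (-g i) = (-1) ^ #(univ \ t) * ∏ i ∈ univ \ t, g i := by
    rw [← prod_const, ← prod_mul_distrib]
    apply prod_congr rfl
    intro i _; ring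
  have e2 : ∏ i, (if i ∈ t then f i else g i) = (∏ i ∈ t, f i) * ∏ i ∈ univ \ t, g i := by
    rw [← prod_sdiff (subset_univ t), mul_comm]
    congr 1
    · apply prod_congr rfl
      intro i hi; rw [if_pos hi]
    · apply prod_congr rfl
      intro i hi; rw [if_neg (Finset.mem_sdiff.1 hi).2]
  rw [e1, e2]; ring

theorem cin_exp {h : ℕ} (hh : 1 ≤ h) (c u : Fin k → ℤ) :
    cin h c u = ∑ t : Finset (Fin k), (-1) ^ #(univ \ t) * ind (yv h c t) u := by
  have hpos : (0 : ℤ) < h := by exact_mod_cast hh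
  have e1 : cin h c u = ∏ i, ((if u i ≤ h * (c i + 1) - 1 then (1 : ℝ) else 0) - (if u i ≤ h * (c i + 0) - 1 then (1 : ℝ) else 0)) := by
    have e2 : ∀ i, ((if u i ≤ h * (c i + 1) - 1 then (1 : ℝ) else 0) - (if u i ≤ h * (c i + 0) - 1 then (1 : ℝ) else 0)) =
        if u i / h = c i then 1 else 0 := by
      intro i
      have a1 : u i ≤ h * (c i + 1) - 1 ↔ u i / h < c i + 1 := by
        rw [Int.ediv_lt_iff_lt_mul hpos, mul_comm]; omega
      have a2 : u i ≤ h * (c i + 0) - 1 ↔ u i / h < c i + 0 := by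
        rw [Int.ediv_lt_iff_lt_mul hpos, mul_comm]; omega
      simp only [a1, a2]
      by_cases h1 : u i / h = c i
      · rw [if_pos (by omega), if_neg (by omega), if_pos h1]; ring
      · rw [if_neg h1]
        by_cases h2 : u i / h < c i
        · rw [if_pos (by omega), if_pos (by omega)]; ring
        · rw [if_neg (by omega), if_neg (by omega)]; ring
    rw [prod_congr rfl (fun i _ => e2 i), prod_ite_zero]
    unfold cin
    simp
  rw [e1, prod_dif_exp]
  apply sum_congr rfl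
  intro t _
  congr 1
  have e3 : ∀ i, (if i ∈ t then (if u i ≤ h * (c i + 1) - 1 then (1 : ℝ) else 0) else (if u i ≤ h * (c i + 0) - 1 then (1 : ℝ) else 0)) =
      if u i ≤ yv h c t i then 1 else 0 := by
    intro i
    unfold yv
    by_cases hi : i ∈ t
    · simp [hi]
    · simp [hi]
  rw [prod_congr rfl (fun i _ => e3 i), prod_ite_zero]
  unfold ind
  simp

theorem cell_diff {E₁ E₂ : ((Fin k → ℤ) → ℝ) → ℝ} (h1 : IsE E₁) (h2 : IsE E₂) {h : ℕ} (hh : 1 ≤ h) (c : Fin k → ℤ)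
    {δ : ℝ} (hD : ∀ t : Finset (Fin k), |E₁ (ind (yv h c t)) - E₂ (ind (yv h c t))| ≤ δ) :
    |E₁ (cin h c) - E₂ (cin h c)| ≤ 2 ^ k * δ := by
  have key : ∀ E : ((Fin k → ℤ) → ℝ) → ℝ, IsE E → E (cin h c) = ∑ t : Finset (Fin k), (-1) ^ #(univ \ t) * E (ind (yv h c t)) := by
    intro E hE
    have e : cin h c = fun u => ∑ t : Finset (Fin k), (-1) ^ #(univ \ t) * ind (yv h c t) u := by
      funext u; exact cin_exp hh c u
    rw [e, hE.sum]
    apply sum_congr rfl
    intro t _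
    rw [hE.smul]
  rw [key E₁ h1, key E₂ h2, ← sum_sub_distrib]
  refine (abs_sum_le_sum_abs _ _).trans ?_
  have : ∀ t ∈ (univ : Finset (Finset (Fin k))), |(-1) ^ #(univ \ t) * E₁ (ind (yv h c t)) - (-1) ^ #(univ \ t) * E₂ (ind (yv h c t))| ≤ δ := by
    intro t _
    rw [← mul_sub, abs_mul, abs_pow, abs_neg, abs_one, one_pow, one_mul]
    exact hD t
  refine (sum_le_sum this).trans (le_of_eq ?_)
  rw [sum_const, nsmul_eq_mul, card_univ, Fintype.card_finset, Fintype.card_fin]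
  push_cast; ring

/-- the window -/
def win (h : ℕ) (b : Fin k → ℤ) (J : ℕ) (u : Fin k → ℤ) : Prop := ∀ i, b i ≤ u i / h ∧ u i / h < b i + J

theorem win_exp (h : ℕ) (b : Fin k → ℤ) (J : ℕ) (F : (Fin k → ℤ) → ℝ) (u : Fin k → ℤ) [Decidable (win h b J u)] :
    (if win h b J u then F (fun i => u i / h) else 0) =
      ∑ c ∈ Fintype.piFinset (fun i => Ico (b i) (b i + J)), F c * cin h c u := by
  split_ifs with hw
  · rw [sum_eq_single (fun i => u i / h)]
    · unfold cin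
      simp
    · intro c _ hc
      unfold cin
      rw [if_neg, mul_zero]
      intro h1
      exact hc (funext fun i => (h1 i).symm)
    · intro hn
      exfalso
      apply hn
      rw [Fintype.mem_piFinset]
      intro i
      rw [mem_Ico]
      exact hw i
  · symm
    apply sum_eq_zero
    intro c hc
    unfold cin
    rw [if_neg, mul_zero]
    intro h1
    apply hw
    intro i
    rw [Fintype.mem_piFinset] at hc
    have := hc i
    rw [mem_Ico] at this
    rw [h1 i]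
    exact this

theorem tv_window {E₁ E₂ : ((Fin k → ℤ) → ℝ) → ℝ} (h1 : IsE E₁) (h2 : IsE E₂) {h : ℕ} (hh : 1 ≤ h) (b : Fin k → ℤ) (J : ℕ)
    {δ : ℝ} (hD : ∀ c ∈ Fintype.piFinset (fun i => Ico (b i) (b i + (J : ℤ))), ∀ t : Finset (Fin k),
      |E₁ (ind (yv h c t)) - E₂ (ind (yv h c t))| ≤ δ) {F : (Fin k → ℤ) → ℝ} (hF : ∀ c, |F c| ≤ 1) :
    |E₁ (fun u => ∑ c ∈ Fintype.piFinset (fun i => Ico (b i) (b i + (J : ℤ))), F c * cin h c u) -
      E₂ (fun u => ∑ c ∈ Fintype.piFinset (fun i => Ico (b i) (b i + (J : ℤ))), F c * cin h c u)| ≤ (J : ℝ) ^ k * (2 ^ k * δ) := by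
  rw [h1.sum, h2.sum, ← sum_sub_distrib]
  refine (abs_sum_le_sum_abs _ _).trans ?_
  have key : ∀ c ∈ Fintype.piFinset (fun i => Ico (b i) (b i + (J : ℤ))),
      |E₁ (fun u => F c * cin h c u) - E₂ (fun u => F c * cin h c u)| ≤ 2 ^ k * δ := by
    intro c hc
    rw [h1.smul, h2.smul, ← mul_sub, abs_mul]
    have a1 := cell_diff h1 h2 hh c (hD c hc)
    calc |F c| * |E₁ (cin h c) - E₂ (cin h c)| ≤ 1 * (2 ^ k * δ) :=
          mul_le_mul (hF c) a1 (abs_nonneg _) zero_le_one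
      _ = _ := one_mul _
  refine (sum_le_sum key).trans (le_of_eq ?_)
  rw [sum_const, nsmul_eq_mul, Fintype.card_piFinset]
  congr 1
  have : ∀ i, #(Ico (b i) (b i + (J : ℤ))) = J := by
    intro i; rw [Int.card_Ico]; omega
  rw [prod_congr rfl (fun i _ => this i), prod_const, card_univ, Fintype.card_fin]
  push_cast; rfl

open Classical in
theorem near_cells {Ω : Type*} {E : (Ω → ℝ) → ℝ} (hE : IsE E) (U : Ω → Fin k → ℤ) (h : ℕ) (b : Fin k → ℤ) (J : ℕ)
    {F : (Fin k → ℤ) → ℝ} (hF : ∀ c, |F c| ≤ 1) (G e : Ω → ℝ) (hG : ∀ ω, |G ω - F (fun i => U ω i / h)| ≤ e ω) :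
    |E G - E (fun ω => ∑ c ∈ Fintype.piFinset (fun i => Ico (b i) (b i + (J : ℤ))), F c * cin h c (U ω))| ≤
      E e + E (fun ω => if win h b J (U ω) then 0 else 1) := by
  rw [← hE.sub, ← hE.add]
  apply hE.abs_le
  intro ω
  rw [← win_exp]
  split_ifs with hw
  · rw [add_zero]; exact hG ω
  · rw [sub_zero]
    have a1 := hG ω
    have a2 := hF (fun i => U ω i / h)
    calc |G ω| = |(G ω - F (fun i => U ω i / h)) + F (fun i => U ω i / h)| := by congr 1; ring
      _ ≤ e ω + 1 := (abs_add_le _ _).trans (add_le_add a1 a2)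

open Classical in
/-- comparison of two expectations of functions which are nearly functions of the cell -/
theorem compare {Ω₁ Ω₂ : Type*} {E₁ : (Ω₁ → ℝ) → ℝ} {E₂ : (Ω₂ → ℝ) → ℝ} (h1 : IsE E₁) (h2 : IsE E₂)
    (U₁ : Ω₁ → Fin k → ℤ) (U₂ : Ω₂ → Fin k → ℤ) {h : ℕ} (hh : 1 ≤ h) (b : Fin k → ℤ) (J : ℕ) {δ : ℝ}
    (hD : ∀ c ∈ Fintype.piFinset (fun i => Ico (b i) (b i + (J : ℤ))), ∀ t : Finset (Fin k),
      |E₁ (fun ω => ind (yv h c t) (U₁ ω)) - E₂ (fun ω => ind (yv h c t) (U₂ ω))| ≤ δ)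
    {F : (Fin k → ℤ) → ℝ} (hF : ∀ c, |F c| ≤ 1) (G₁ e₁ : Ω₁ → ℝ) (G₂ e₂ : Ω₂ → ℝ)
    (hG₁ : ∀ ω, |G₁ ω - F (fun i => U₁ ω i / h)| ≤ e₁ ω) (hG₂ : ∀ ω, |G₂ ω - F (fun i => U₂ ω i / h)| ≤ e₂ ω) :
    |E₁ G₁ - E₂ G₂| ≤ E₁ e₁ + E₂ e₂ + E₁ (fun ω => if win h b J (U₁ ω) then 0 else 1) +
      E₂ (fun ω => if win h b J (U₂ ω) then 0 else 1) + (J : ℝ) ^ k * (2 ^ k * δ) := by
  have k1 := near_cells h1 U₁ h b J hF G₁ e₁ hG₁
  have k2 := near_cells h2 U₂ h b J hF G₂ e₂ hG₂
  have k3 := tv_window (h1.push U₁) (h2.push U₂) hh b J hD hF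
  rw [abs_le] at *
  constructor <;> linarith [k1.1, k1.2, k2.1, k2.2, k3.1, k3.2]

end Pool.Agent.J4H26.KT
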