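import Mathlib
import Pool.Agent.J4H26.KT.B

set_option autoImplicit false

/-! The law of the exponents for all thresholds. -/

namespace Pool.Agent.J4H26.KT

open Finset Filter Topology
open Pool.Agent.J4H39 (T od Per ex pb ex_zero ex_succ ex_congr ex_add ex_mul ex_mono ex_const kk kk_pos pb_nonneg stP rn Di yy pb_mono
  pb_per per_rn rn_Di rel_yy pb_affine pow3_odd pb_le_one pr pr_le)
open Pool.Agent.J4H26.AF

variable {k : ℕ}

theorem isE_ex (t : ℕ) : IsE (ex t) := ⟨fun f g => ex_add t f g, fun c f => ex_mul t c f, fun _ _ h => ex_mono h, ex_const t 1⟩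

theorem isE_cw (t : ℕ) (z : Fin k → ℤ) : IsE (fun f => cw f t z) :=
  ⟨fun f g => cw_add f g t z, fun c f => cw_smul c f t z, fun _ _ h => cw_mono h t z, cw_const 1 t z⟩

theorem sw_shift (g : ℤ → ℝ) (n : ℕ) : ∀ d, sw (fun x => (g x + g (x + 1)) / 2) n d = sw g (n + 1) d := by
  induction n with
  | zero => intro d; rfl
  | succ n ih =>
    intro d
    rw [show sw (fun x => (g x + g (x + 1)) / 2) (n + 1) d = (sw (fun x => (g x + g (x + 1)) / 2) n d +
      sw (fun x => (g x + g (x + 1)) / 2) n (d + 1)) / 2 from rfl, ih, ih]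
    rfl

theorem ex_single (a : Fin k → ℕ) (r : Fin k → ℤ) (i : Fin k) (n : ℕ) : ∀ g : ℤ → ℝ,
    ex n (fun m => g (AA a r n m i)) = sw g n (a i) := by
  induction n with
  | zero => intro g; rw [ex_zero]; simp [AA, od, sw]
  | succ n ih =>
    intro g
    rw [ex_succ, ← sw_shift, ← ih (fun x => (g x + g (x + 1)) / 2)]
    apply ex_congr
    intro m
    have h1 : AA a r n (m + 2 ^ n) = AA a r n m := by
      have := per_AA a r (le_refl n) m 1
      rwa [mul_one] at this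
    rw [AA_succ, AA_succ]
    simp only
    rw [pr_Lf_flip, h1]
    have h2 := pr_le n (Lf a r i m)
    rcases (show pr n (Lf a r i m) = 0 ∨ pr n (Lf a r i m) = 1 by omega) with h3 | h3
    · rw [h3]; simp
    · rw [h3]; simp; ring

theorem tail_A (a : Fin k → ℕ) (r : Fin k → ℤ) (i : Fin k) {s : ℕ} (hs : 1 ≤ s) {M : ℝ} (hM : 0 < M) :
    ex s (fun m => if 2 * M * √ (s : ℝ) ≤ |2 * (AA a r s m i : ℝ) - (2 * (a i : ℤ) + s)| then 1 else 0) ≤ 1 / (4 * M ^ 2) := by
  have h1 := ex_single a r i s (fun x : ℤ => if 2 * M * √ (s : ℝ) ≤ |2 * (x : ℝ) - (2 * (a i : ℤ) + s)| then (1 : ℝ) else 0)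
  rw [h1]
  have h2 := tail_single i hs hM (fun i => (a i : ℤ))
  have h3 := cw_single (fun x : ℤ => if 2 * M * √ (s : ℝ) ≤ |2 * (x : ℝ) - (2 * (a i : ℤ) + s)| then (1 : ℝ) else 0) i s
    (fun i => (a i : ℤ))
  rw [← h3]
  exact h2

/-! Order. -/

/-- the least threshold from the right -/
noncomputable def ymin (y : Fin k → ℤ) (i : Fin k) : ℤ := (univ.filter (fun l => i ≤ l)).inf' ⟨i, by simp⟩ y

theorem ymin_mono (y : Fin k → ℤ) : Monotone (ymin y) := by
  intro i j hij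
  unfold ymin
  apply inf'_mono
  intro l hl
  rw [mem_filter] at hl ⊢
  exact ⟨mem_univ _, hij.trans hl.2⟩

theorem ymin_le (y : Fin k → ℤ) {i l : Fin k} (h : i ≤ l) : ymin y i ≤ y l := by
  unfold ymin
  exact inf'_le _ (by simp [h])

theorem ymin_ex (y : Fin k → ℤ) (i : Fin k) : ∃ l, i ≤ l ∧ ymin y i = y l := by
  obtain ⟨l, hl, h⟩ := exists_mem_eq_inf' (s := univ.filter (fun l => i ≤ l)) ⟨i, by simp⟩ y
  rw [mem_filter] at hl
  exact ⟨l, hl.2, h⟩

theorem coal_cw (y : Fin k → ℤ) (s : ℕ) : ∀ z, coal y s z = cw (ind y) s z := by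
  induction s with
  | zero => intro z; rfl
  | succ s ih =>
    intro z
    show (∑ p ∈ moves z, coal y s (fun i => z i + (p i : ℕ))) / #(moves z) = _
    rw [cw_succ, sum_congr rfl (fun p _ => ih _)]

theorem ind_ymin (y : Fin k → ℤ) {u : Fin k → ℤ} (hu : Monotone u) : ind y u = ind (ymin y) u := by
  unfold ind
  have : (∀ i, u i ≤ y i) ↔ ∀ i, u i ≤ ymin y i := by
    constructor
    · intro h i
      obtain ⟨l, hl, e⟩ := ymin_ex y i
      rw [e]
      exact (hu hl).trans (h l)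
    · intro h i
      exact (h i).trans (ymin_le y le_rfl)
  simp only [this]

theorem cw_ymin (y : Fin k → ℤ) (s : ℕ) {z : Fin k → ℤ} (hz : Monotone z) : cw (ind y) s z = cw (ind (ymin y)) s z :=
  le_antisymm (cw_mono_on (fun _ hu => (ind_ymin y hu).le) s z hz) (cw_mono_on (fun _ hu => (ind_ymin y hu).ge) s z hz)

/-- inversions -/
noncomputable def inv (y : ℤ) (u v : ℤ) : ℝ := if v ≤ y ∧ y < u then 1 else 0

theorem ind_dif (y u : Fin k → ℤ) : |ind y u - ind (ymin y) u| ≤ ∑ i, ∑ l, if i < l then inv (y l) (u i) (u l) else 0 := by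
  have hnn : ∀ i l : Fin k, 0 ≤ (if i < l then inv (y l) (u i) (u l) else 0) := by
    intro i l; unfold inv; split_ifs <;> norm_num
  by_cases h : ∀ i, u i ≤ y i
  · by_cases h2 : ∀ i, u i ≤ ymin y i
    · unfold ind
      rw [if_pos h, if_pos h2, sub_self, abs_zero]
      exact sum_nonneg fun i _ => sum_nonneg fun l _ => hnn i l
    · unfold ind
      rw [if_pos h, if_neg h2, sub_zero, abs_one]
      push Not at h2
      obtain ⟨i, hi⟩ := h2
      obtain ⟨l, hl, e⟩ := ymin_ex y i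
      rw [e] at hi
      have hne : i ≠ l := by
        rintro rfl
        exact absurd (h i) (not_le.2 hi)
      have h3 : (if i < l then inv (y l) (u i) (u l) else 0) = 1 := by
        rw [if_pos (lt_of_le_of_ne hl hne)]
        unfold inv
        rw [if_pos ⟨h l, hi⟩]
      calc (1 : ℝ) = if i < l then inv (y l) (u i) (u l) else 0 := h3.symm
        _ ≤ ∑ l, if i < l then inv (y l) (u i) (u l) else 0 :=
            single_le_sum (f := fun l => if i < l then inv (y l) (u i) (u l) else 0) (fun l _ => hnn i l) (mem_univ l)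
        _ ≤ _ := single_le_sum (f := fun i => ∑ l, if i < l then inv (y l) (u i) (u l) else 0)
            (fun i _ => sum_nonneg fun l _ => hnn i l) (mem_univ i)
  · have h2 : ¬ ∀ i, u i ≤ ymin y i := fun h3 => h fun i => (h3 i).trans (ymin_le y le_rfl)
    unfold ind
    rw [if_neg h, if_neg h2, sub_self, abs_zero]
    exact sum_nonneg fun i _ => sum_nonneg fun l _ => hnn i l

theorem pb_ind (t : ℕ) (y : Fin k → ℤ) (a : Fin k → ℕ) (r : Fin k → ℤ) :
    pb t (fun m => ∀ i, AA a r t m i ≤ y i) = ex t (fun m => ind y (AA a r t m)) := by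
  rw [pb_dec]
  rfl

theorem Phi_one (t : ℕ) (y : Fin 1 → ℤ) (z : Fin 1 → ℤ) : Phi y t z = Fb t (y 0 - z 0) := by
  unfold Phi
  rw [Matrix.det_fin_one]
  simp [Rw]

theorem Phi_two (t : ℕ) (y : ℤ) (z : Fin 2 → ℤ) : Phi (fun _ => y) t z = Fb t (y - z 1) := by
  unfold Phi
  rw [Matrix.det_fin_two]
  simp only [Rw]
  rw [if_neg (by decide), if_neg (by decide), if_pos (by decide), if_neg (by decide)]
  ring

theorem inv_small {δ c : ℝ} {t : ℕ}
    (h1 : ∀ (a : Fin 1 → ℕ) (r : Fin 1 → ℤ), Monotone a → Small a r c t → ∀ y : Fin 1 → ℤ, Monotone y →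
      |pb t (fun m => ∀ i, AA a r t m i ≤ y i) - Phi y t (fun i => (a i : ℤ))| ≤ δ)
    (h2 : ∀ (a : Fin 2 → ℕ) (r : Fin 2 → ℤ), Monotone a → Small a r c t → ∀ y : Fin 2 → ℤ, Monotone y →
      |pb t (fun m => ∀ i, AA a r t m i ≤ y i) - Phi y t (fun i => (a i : ℤ))| ≤ δ)
    {a : Fin k → ℕ} {r : Fin k → ℤ} (ha : Monotone a) (hs : Small a r c t) {i l : Fin k} (hil : i < l) (y : ℤ) :
    ex t (fun m => inv y (AA a r t m i) (AA a r t m l)) ≤ 2 * δ := by
  have b1 := h1 (fun _ => a l) (fun _ => r l) monotone_const (fun _ => hs l) (fun _ => y) monotone_const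
  obtain ⟨ι, hι⟩ : ∃ ι : Fin 2 → Fin k, ι = ![i, l] := ⟨_, rfl⟩
  have i0 : ι 0 = i := by rw [hι]; rfl
  have i1 : ι 1 = l := by rw [hι]; rfl
  have hm : Monotone (fun j => a (ι j)) := by
    intro p q hpq
    simp only
    apply ha
    fin_cases p <;> fin_cases q
    · exact le_rfl
    · show ι 0 ≤ ι 1; rw [i0, i1]; exact hil.le
    · exact absurd hpq (by decide)
    · exact le_rfl
  have b2 := h2 (fun j => a (ι j)) (fun j => r (ι j)) hm (fun j => hs (ι j)) (fun _ => y) monotone_const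
  rw [Phi_one] at b1
  rw [Phi_two] at b2
  simp only [i1] at b2
  have e1 : ∀ m, AA (fun _ : Fin 1 => a l) (fun _ => r l) t m 0 = AA a r t m l := fun m => rfl
  have e2 : ∀ m (j : Fin 2), AA (fun j => a (ι j)) (fun j => r (ι j)) t m j = AA a r t m (ι j) := fun m j => rfl
  have key : ex t (fun m => inv y (AA a r t m i) (AA a r t m l)) =
      pb t (fun m => ∀ j : Fin 1, AA (fun _ : Fin 1 => a l) (fun _ => r l) t m j ≤ y) -
      pb t (fun m => ∀ j : Fin 2, AA (fun j => a (ι j)) (fun j => r (ι j)) t m j ≤ y) := by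
    rw [pb_dec, pb_dec, ← (isE_ex t).sub]
    apply ex_congr
    intro m
    simp only [Fin.forall_fin_one, Fin.forall_fin_two, e1, e2, i0, i1]
    unfold inv
    by_cases g1 : AA a r t m l ≤ y
    · by_cases g2 : AA a r t m i ≤ y
      · rw [if_neg (fun hh => absurd g2 (not_le.2 hh.2)), if_pos g1, if_pos ⟨g2, g1⟩]; ring
      · rw [if_pos ⟨g1, not_le.1 g2⟩, if_pos g1, if_neg (fun hh => g2 hh.1)]; ring
    · rw [if_neg (fun hh => g1 hh.1), if_neg g1, if_neg (fun hh => g1 hh.2)]; ring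
  rw [key]
  rw [abs_le] at b1 b2
  have e3 : ∀ (c : ℝ), (c - Fb t (y - (a l : ℤ)) ≤ δ) → c ≤ δ + Fb t (y - (a l : ℤ)) := fun c h => by linarith
  linarith [b1.2, b2.1]

/-- **The law of the exponents for all thresholds.** -/
theorem cdf_all (k : ℕ) {ε : ℝ} (hε : 0 < ε) : ∃ c : ℝ, 0 < c ∧ ∀ᶠ t : ℕ in atTop,
    ∀ (a : Fin k → ℕ) (r : Fin k → ℤ), Monotone a → Small a r c t → ∀ y : Fin k → ℤ,
      |ex t (fun m => ind y (AA a r t m)) - cw (ind y) t (fun i => (a i : ℤ))| ≤ ε := by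
  obtain ⟨δ, hδ⟩ : ∃ δ : ℝ, δ = ε / (1 + 2 * (k : ℝ) ^ 2) := ⟨_, rfl⟩
  have hk0 : (0 : ℝ) < 1 + 2 * (k : ℝ) ^ 2 := by positivity
  have hδ0 : 0 < δ := by rw [hδ]; positivity
  obtain ⟨c₁, hc₁, l1⟩ := main_law k hδ0
  obtain ⟨c₂, hc₂, l2⟩ := main_law 2 hδ0
  obtain ⟨c₃, hc₃, l3⟩ := main_law 1 hδ0
  refine ⟨min c₁ (min c₂ c₃), lt_min hc₁ (lt_min hc₂ hc₃), ?_⟩
  filter_upwards [l1, l2, l3] with t b1 b2 b3
  intro a r ha hs y
  have m1 : min c₁ (min c₂ c₃) ≤ c₁ := min_le_left _ _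
  have m2 : min c₁ (min c₂ c₃) ≤ c₂ := (min_le_right _ _).trans (min_le_left _ _)
  have m3 : min c₁ (min c₂ c₃) ≤ c₃ := (min_le_right _ _).trans (min_le_right _ _)
  have hz : Monotone (fun i => ((a i : ℕ) : ℤ)) := fun i j hij => by simp only; exact_mod_cast ha hij
  have s1 := b1 a r ha (hs.mono m1) (ymin y) (ymin_mono y)
  rw [pb_ind, ← coal_eq _ (ymin_mono y) t _ hz, coal_cw, ← cw_ymin y t hz] at s1
  have s2 : |ex t (fun m => ind y (AA a r t m)) - ex t (fun m => ind (ymin y) (AA a r t m))| ≤ (k : ℝ) ^ 2 * (2 * δ) := by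
    rw [← (isE_ex t).sub]
    refine ((isE_ex t).abs_le (fun m => ind_dif y (AA a r t m))).trans ?_
    rw [(isE_ex t).sum]
    have h1 : ∀ i ∈ (univ : Finset (Fin k)), ex t (fun m => ∑ l, if i < l then inv (y l) (AA a r t m i) (AA a r t m l) else 0) ≤
        (k : ℝ) * (2 * δ) := by
      intro i _
      rw [(isE_ex t).sum]
      have h2 : ∀ l ∈ (univ : Finset (Fin k)), ex t (fun m => if i < l then inv (y l) (AA a r t m i) (AA a r t m l) else 0) ≤ 2 * δ := by
        intro l _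
        by_cases hil : i < l
        · simp only [if_pos hil]
          exact inv_small (c := min c₂ c₃) (fun a r ha hs => b3 a r ha (hs.mono (min_le_right _ _)))
            (fun a r ha hs => b2 a r ha (hs.mono (min_le_left _ _))) ha (hs.mono (min_le_right _ _)) hil (y l)
        · simp only [if_neg hil]
          rw [ex_const]; positivity
      refine (sum_le_sum h2).trans (le_of_eq ?_)
      rw [sum_const, card_univ, Fintype.card_fin, nsmul_eq_mul]
    refine (sum_le_sum h1).trans (le_of_eq ?_)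
    rw [sum_const, card_univ, Fintype.card_fin, nsmul_eq_mul]
    ring
  have s3 : δ + (k : ℝ) ^ 2 * (2 * δ) = ε := by
    have : δ + (k : ℝ) ^ 2 * (2 * δ) = δ * (1 + 2 * (k : ℝ) ^ 2) := by ring
    rw [this, hδ, div_mul_cancel₀ _ hk0.ne']
  rw [abs_le] at *
  constructor <;> linarith [s1.1, s1.2, s2.1, s2.2]

end Pool.Agent.J4H26.KT
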