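import Mathlib
import Pool.Agent.J4H26.KT.C

set_option autoImplicit false

/-! The joint law of the exponents and of the pattern of the mergings. -/

namespace Pool.Agent.J4H26.KT

open Finset Filter Topology
open Pool.Agent.J4H39 (T od Per ex pb ex_zero ex_succ ex_congr ex_add ex_mul ex_mono ex_const kk kk_pos pb_nonneg stP rn Di yy pb_mono
  pb_per per_rn rn_Di rel_yy pb_affine pow3_odd pb_le_one pr pr_le)
open Pool.Agent.J4H26.AF

variable {k : ℕ}

/-- merged with equal exponents -/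
def Mg (a : Fin k → ℕ) (r : Fin k → ℤ) (t : ℕ) (m : ℤ) (i j : Fin k) : Prop :=
  AA a r t m i = AA a r t m j ∧ T^[t] (Lf a r i m) = T^[t] (Lf a r j m)

theorem Mg_symm (a : Fin k → ℕ) (r : Fin k → ℤ) (t : ℕ) (m : ℤ) (i j : Fin k) : Mg a r t m i j ↔ Mg a r t m j i := by
  unfold Mg
  constructor <;> rintro ⟨h1, h2⟩ <;> exact ⟨h1.symm, h2.symm⟩

/-- closeness of the exponents forces merging -/
theorem close_states {ε : ℝ} (hε : 0 < ε) : ∃ β : ℝ, 0 < β ∧ ∃ c : ℝ, 0 < c ∧ ∀ᶠ t : ℕ in atTop,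
    ∀ (k : ℕ) (a : Fin k → ℕ) (r : Fin k → ℤ), Small a r c t → ∀ i j : Fin k,
      pb t (fun m => |(AA a r t m i : ℝ) - AA a r t m j| ≤ β * √ (t : ℝ) ∧ ¬ Mg a r t m i j) ≤ ε := by
  obtain ⟨β, hβ, c, hc, h⟩ := low_small (η := 1) (κ := ε) one_pos hε
  refine ⟨β, hβ, c / 3, by positivity, ?_⟩
  filter_upwards [h, (tendsto_natCast_atTop_atTop (R := ℝ)).eventually_ge_atTop (3 / c)] with t b1 b2
  rw [div_le_iff₀ hc] at b2
  have ht0 : (0 : ℝ) ≤ t := by positivity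
  have half : ∀ (k : ℕ) (a : Fin k → ℕ) (r : Fin k → ℤ), Small a r (c / 3) t → ∀ i j : Fin k, a i ≤ a j →
      pb t (fun m => |(AA a r t m i : ℝ) - AA a r t m j| ≤ β * √ (t : ℝ) ∧ ¬ Mg a r t m i j) ≤ ε := by
    intro k a r hsm i j hij
    set D := a j - a i with hD
    set R := RR a r i j with hR
    obtain ⟨Q, hQd⟩ : ∃ Q : ℤ → Prop, Q = fun x => rn stP t ((D : ℤ), R) x ≠ (0, 0) ∧
      |((rn stP t ((D : ℤ), R) x).1 : ℝ)| ≤ β * √ (t : ℝ) := ⟨_, rfl⟩
    have hQper : Per t Q := by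
      intro x u
      rw [hQd]
      simp only
      rw [per_rn stP _ (le_refl t) x u]
    have q1 : pb t (fun m => Q (3 ^ a i * m + r i)) ≤ ε := by
      rw [pb_affine hQper (pow3_odd (a i)) (r i), hQd, pb_low]
      apply b1 t (by linarith) D R
      · have : (D : ℝ) ≤ a j := by exact_mod_cast (by omega : D ≤ a j)
        have := (hsm j).1
        nlinarith
      · have hRb := RR_bd a r (c := c / 3) (t := t) (by linarith) (hsm j).1 (hsm i).2 (hsm j).2
        have : ((|RR a r i j| : ℤ) : ℝ) ≤ ((4 ^ ⌊3 * (c / 3) * (t : ℝ)⌋₊ : ℤ) : ℝ) := by exact_mod_cast hRb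
        push_cast at this
        rw [show 3 * (c / 3) = c by ring] at this
        exact this
    refine le_trans (pb_mono ?_) q1
    rintro m ⟨h2, h3⟩
    have e0 : Di D R t (3 ^ a i * m + r i) = AA a r t m j - AA a r t m i := by
      unfold AA
      rw [Lf_yy a r hij]
      unfold Di
      have e2 : Lf a r i m = 3 ^ a i * m + r i := rfl
      rw [← hD, ← hR, e2]
      have : (D : ℤ) = a j - a i := by rw [hD]; push_cast [hij]; ring
      omega
    rw [hQd]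
    simp only
    constructor
    · intro h0
      apply h3
      constructor
      · have h4 := rn_Di D R (3 ^ a i * m + r i) t
        rw [h0] at h4
        simp only at h4
        omega
      · rw [Lf_yy a r hij]
        exact (Pool.Agent.J4H39.merge_of_rn (rel_yy D R _) h0).1
    · rw [rn_Di, e0]
      push_cast
      rw [abs_sub_comm]
      exact h2
  intro k a r hsm i j
  rcases le_total (a i) (a j) with hij | hij
  · exact half k a r hsm i j hij
  · refine le_trans (pb_mono ?_) (half k a r hsm j i hij)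
    rintro m ⟨h4, h5⟩
    exact ⟨by rwa [abs_sub_comm], fun h => h5 ((Mg_symm a r t m j i).1 h)⟩

/-- the test functions -/
def Adm (f : (Fin k → ℝ) → (Fin k → Fin k → Prop) → ℝ) : Prop :=
  (∀ u p, |f u p| ≤ 1) ∧ ∀ u v p, |f u p - f v p| ≤ ‖u - v‖

/-- a test function of the final positions and of the coincidences -/
noncomputable def fW (f : (Fin k → ℝ) → (Fin k → Fin k → Prop) → ℝ) (t : ℝ) (u : Fin k → ℤ) : ℝ :=
  f (fun i => (u i : ℝ) / √ t) (fun i j => u i = u j)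

/-- the value at the cell -/
noncomputable def fC (f : (Fin k → ℝ) → (Fin k → Fin k → Prop) → ℝ) (t : ℝ) (h : ℕ) (c : Fin k → ℤ) : ℝ :=
  f (fun i => (h * c i : ℝ) / √ t) (fun i j => c i = c j)

theorem cell_near {h : ℕ} (hh : 1 ≤ h) (u : ℤ) : |(u : ℝ) - h * ((u / (h : ℤ) : ℤ) : ℝ)| ≤ h := by
  have h1 := Int.emod_add_mul_ediv u h
  have h2 := Int.emod_nonneg u (by omega : (h : ℤ) ≠ 0)
  have h3 := Int.emod_lt_of_pos u (by omega : (0 : ℤ) < h)
  have h4 : (u : ℝ) - h * ((u / (h : ℤ) : ℤ) : ℝ) = ((u % (h : ℤ) : ℤ) : ℝ) := by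
    have : ((u % (h : ℤ) + h * (u / h) : ℤ) : ℝ) = u := by rw [h1]
    push_cast at this
    linarith
  rw [h4, abs_of_nonneg (by exact_mod_cast h2)]
  exact_mod_cast h3.le

theorem cell_close {h : ℕ} (hh : 1 ≤ h) {u v : ℤ} (e : u / (h : ℤ) = v / (h : ℤ)) : |u - v| ≤ h := by
  have h1 := Int.emod_add_mul_ediv u h
  have h2 := Int.emod_nonneg u (by omega : (h : ℤ) ≠ 0)
  have h3 := Int.emod_lt_of_pos u (by omega : (0 : ℤ) < h)
  have h1' := Int.emod_add_mul_ediv v h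
  have h2' := Int.emod_nonneg v (by omega : (h : ℤ) ≠ 0)
  have h3' := Int.emod_lt_of_pos v (by omega : (0 : ℤ) < h)
  rw [e] at h1
  rw [abs_le]
  constructor <;> omega

open Classical in
theorem point_near {f : (Fin k → ℝ) → (Fin k → Fin k → Prop) → ℝ} (hf : Adm f) {t : ℕ} {h : ℕ} (hh : 1 ≤ h)
    (ht : 1 ≤ t) (u : Fin k → ℤ) (p : Fin k → Fin k → Prop) (hp : ∀ i j, p i j → u i = u j) :
    |f (fun i => (u i : ℝ) / √ (t : ℝ)) p - fC f t h (fun i => u i / h)| ≤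
      h / √ (t : ℝ) + 2 * ∑ i, ∑ j, if (|u i - u j| ≤ (h : ℤ) ∧ ¬ p i j) then (1 : ℝ) else 0 := by
  have hst : 0 < √ (t : ℝ) := Real.sqrt_pos.2 (by exact_mod_cast ht)
  have hnn : ∀ i j : Fin k, (0 : ℝ) ≤ if (|u i - u j| ≤ (h : ℤ) ∧ ¬ p i j) then (1 : ℝ) else 0 := by
    intro i j; split_ifs <;> norm_num
  by_cases hb : ∃ i j, (u i / (h : ℤ) = u j / (h : ℤ)) ∧ ¬ p i j
  · obtain ⟨i, j, h1, h2⟩ := hb
    have h3 : (1 : ℝ) ≤ ∑ i, ∑ j, if (|u i - u j| ≤ (h : ℤ) ∧ ¬ p i j) then (1 : ℝ) else 0 := by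
      calc (1 : ℝ) = if (|u i - u j| ≤ (h : ℤ) ∧ ¬ p i j) then (1 : ℝ) else 0 := by
            rw [if_pos ⟨cell_close hh h1, h2⟩]
        _ ≤ ∑ j, if (|u i - u j| ≤ (h : ℤ) ∧ ¬ p i j) then (1 : ℝ) else 0 :=
            single_le_sum (f := fun j => if (|u i - u j| ≤ (h : ℤ) ∧ ¬ p i j) then (1 : ℝ) else 0) (fun j _ => hnn i j) (mem_univ j)
        _ ≤ _ := single_le_sum (f := fun i => ∑ j, if (|u i - u j| ≤ (h : ℤ) ∧ ¬ p i j) then (1 : ℝ) else 0)
            (fun i _ => sum_nonneg fun j _ => hnn i j) (mem_univ i)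
    have h4 := hf.1 (fun i => (u i : ℝ) / √ (t : ℝ)) p
    have h5 := hf.1 (fun i => (h * ((fun i => u i / (h : ℤ)) i : ℤ) : ℝ) / √ (t : ℝ)) (fun i j => (fun i => u i / (h : ℤ)) i = (fun i => u i / (h : ℤ)) j)
    unfold fC
    have h6 : (0 : ℝ) ≤ h / √ (t : ℝ) := by positivity
    refine (abs_sub _ _).trans ?_
    linarith
  · push Not at hb
    have h1 : p = fun i j => (fun i => u i / (h : ℤ)) i = (fun i => u i / (h : ℤ)) j := by
      funext i j
      apply propext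
      simp only
      constructor
      · intro h2; rw [hp i j h2]
      · intro h2; exact hb i j h2
    unfold fC
    rw [← h1]
    refine (hf.2 _ _ _).trans ?_
    have h2 : ‖(fun i => (u i : ℝ) / √ (t : ℝ)) - fun i => (h * ((fun i => u i / (h : ℤ)) i : ℤ) : ℝ) / √ (t : ℝ)‖ ≤ h / √ (t : ℝ) := by
      rw [pi_norm_le_iff_of_nonneg (by positivity)]
      intro i
      rw [Pi.sub_apply, Real.norm_eq_abs, ← sub_div, abs_div, abs_of_pos hst]
      exact div_le_div_of_nonneg_right (cell_near hh (u i)) hst.le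
    have h3 : (0 : ℝ) ≤ ∑ i, ∑ j, if (|u i - u j| ≤ (h : ℤ) ∧ ¬ p i j) then (1 : ℝ) else 0 :=
      sum_nonneg fun i _ => sum_nonneg fun j _ => hnn i j
    linarith

/-- the window is rarely left -/
theorem win_of {a u : ℤ} {t R h : ℕ} (hh : 1 ≤ h) (hu : |2 * u - (2 * a + t)| < 2 * (R : ℤ)) :
    (a + (t / 2 : ℕ) - R - 1) / (h : ℤ) ≤ u / h ∧ u / h < (a + (t / 2 : ℕ) - R - 1) / (h : ℤ) + (((2 * R + 3) / h + 2 : ℕ) : ℤ) := by
  have hpos : (0 : ℤ) < h := by omega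
  rw [abs_lt] at hu
  constructor
  · apply Int.ediv_le_ediv hpos
    omega
  · have h1 : u ≤ (a + (t / 2 : ℕ) - R - 1) + (2 * R + 3 : ℕ) := by push_cast; omega
    have h2 := Int.ediv_le_ediv hpos h1
    have h3 : ((a + (t / 2 : ℕ) - R - 1) + ((2 * R + 3 : ℕ) : ℤ)) / (h : ℤ) ≤
        (a + (t / 2 : ℕ) - R - 1) / (h : ℤ) + ((2 * R + 3 : ℕ) : ℤ) / h + 1 := by
      have g1 := Int.emod_add_mul_ediv (a + (t / 2 : ℕ) - R - 1) h
      have g2 := Int.emod_lt_of_pos (a + (t / 2 : ℕ) - R - 1) hpos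
      have g3 := Int.emod_add_mul_ediv ((2 * R + 3 : ℕ) : ℤ) h
      have g4 := Int.emod_lt_of_pos ((2 * R + 3 : ℕ) : ℤ) hpos
      generalize (a + (t / 2 : ℕ) - R - 1) = x at *
      generalize ((2 * R + 3 : ℕ) : ℤ) = w at *
      apply Int.le_of_lt_add_one
      rw [Int.ediv_lt_iff_lt_mul hpos]
      have e1 : x + w = x % h + w % h + h * (x / h + w / h) := by linarith
      rw [e1]
      nlinarith
    have h4 : (((2 * R + 3) / h + 2 : ℕ) : ℤ) = ((2 * R + 3 : ℕ) : ℤ) / h + 2 := by push_cast; rfl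
    rw [h4]
    linarith

end Pool.Agent.J4H26.KT
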