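import Mathlib
import Pool.Agent.J4H26.KT.D

set_option autoImplicit false

/-! The joint law of the exponents and of the pattern of the mergings, assembly. -/

namespace Pool.Agent.J4H26.KT

open Finset Filter Topology
open Pool.Agent.J4H39 (T od Per ex pb ex_zero ex_succ ex_congr ex_add ex_mul ex_mono ex_const kk kk_pos pb_nonneg stP rn Di yy pb_mono
  pb_per per_rn rn_Di rel_yy pb_affine pow3_odd pb_le_one pr pr_le)
open Pool.Agent.J4H26.AF

variable {k : ℕ}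

theorem J_bound {t R h : ℕ} {M η : ℝ} (hM : 0 < M) (hη : 0 < η) (ht : 1 ≤ t) (hR : R = ⌈M * √ (t : ℝ)⌉₊) (hh : h = ⌈η * √ (t : ℝ)⌉₊) :
    (2 * R + 3) / h + 2 ≤ ⌈(2 * M + 5) / η⌉₊ + 2 := by
  have hst : 1 ≤ √ (t : ℝ) := by
    rw [Real.one_le_sqrt]; exact_mod_cast ht
  apply Nat.add_le_add_right
  have h1 : ((2 * R + 3 : ℕ) : ℝ) ≤ (2 * M + 5) * √ (t : ℝ) := by
    have := Nat.ceil_lt_add_one (show 0 ≤ M * √ (t : ℝ) by positivity)
    rw [← hR] at this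
    push_cast
    nlinarith
  have h2 : η * √ (t : ℝ) ≤ h := by rw [hh]; exact Nat.le_ceil _
  have hh0 : (0 : ℝ) < h := lt_of_lt_of_le (by positivity) h2
  have h3 : (((2 * R + 3) / h : ℕ) : ℝ) ≤ (2 * M + 5) / η := by
    refine Nat.cast_div_le.trans ?_
    rw [div_le_div_iff₀ hh0 hη]
    calc ((2 * R + 3 : ℕ) : ℝ) * η ≤ ((2 * M + 5) * √ (t : ℝ)) * η := mul_le_mul_of_nonneg_right h1 hη.le
      _ = (2 * M + 5) * (η * √ (t : ℝ)) := by ring
      _ ≤ (2 * M + 5) * h := mul_le_mul_of_nonneg_left h2 (by positivity)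
  exact_mod_cast h3.trans (Nat.le_ceil _)

open Classical in
theorem win_tail {Ω : Type*} {E : (Ω → ℝ) → ℝ} (hE : IsE E) (U : Ω → Fin k → ℤ) {t : ℕ} {M : ℝ} {R h : ℕ} (hh : 1 ≤ h)
    (hR : R = ⌈M * √ (t : ℝ)⌉₊) (a : Fin k → ℤ) {τ : ℝ}
    (htail : ∀ i, E (fun ω => if 2 * M * √ (t : ℝ) ≤ |2 * (U ω i : ℝ) - (2 * a i + t)| then 1 else 0) ≤ τ) :
    E (fun ω => if win h (fun i => (a i + (t / 2 : ℕ) - R - 1) / (h : ℤ)) ((2 * R + 3) / h + 2) (U ω) then 0 else 1) ≤ k * τ := by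
  have h1 : E (fun ω => if win h (fun i => (a i + (t / 2 : ℕ) - R - 1) / (h : ℤ)) ((2 * R + 3) / h + 2) (U ω) then 0 else 1) ≤
      E (fun ω => ∑ i, if 2 * M * √ (t : ℝ) ≤ |2 * (U ω i : ℝ) - (2 * a i + t)| then 1 else 0) := by
    apply hE.mono
    intro ω
    have hnn : ∀ i : Fin k, (0 : ℝ) ≤ if 2 * M * √ (t : ℝ) ≤ |2 * (U ω i : ℝ) - (2 * a i + t)| then 1 else 0 := by
      intro i; split_ifs <;> norm_num
    split_ifs with hw
    · exact sum_nonneg fun i _ => hnn i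
    · unfold win at hw
      rw [not_forall] at hw
      obtain ⟨i, hi⟩ := hw
      have h2 : 2 * M * √ (t : ℝ) ≤ |2 * (U ω i : ℝ) - (2 * a i + t)| := by
        by_contra hcon
        push Not at hcon
        apply hi
        apply win_of hh
        have h3 : (|2 * (U ω i : ℝ) - (2 * a i + t)| : ℝ) < 2 * (R : ℝ) := by
          refine hcon.trans_le ?_
          have := Nat.le_ceil (M * √ (t : ℝ))
          rw [← hR] at this
          linarith
        exact_mod_cast h3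
      calc (1 : ℝ) = if 2 * M * √ (t : ℝ) ≤ |2 * (U ω i : ℝ) - (2 * a i + t)| then 1 else 0 := by rw [if_pos h2]
        _ ≤ _ := single_le_sum (f := fun i => if 2 * M * √ (t : ℝ) ≤ |2 * (U ω i : ℝ) - (2 * a i + t)| then (1 : ℝ) else 0)
            (fun i _ => hnn i) (mem_univ i)
  refine h1.trans ?_
  rw [hE.sum]
  refine (sum_le_sum fun i _ => htail i).trans (le_of_eq ?_)
  rw [sum_const, card_univ, Fintype.card_fin, nsmul_eq_mul]

open Classical in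
theorem err_sum {Ω : Type*} {E : (Ω → ℝ) → ℝ} (hE : IsE E) (U : Ω → Fin k → ℤ) (p : Ω → Fin k → Fin k → Prop) (h : ℕ) (c₀ : ℝ) {τ : ℝ}
    (hp : ∀ i j, E (fun ω => if (|U ω i - U ω j| ≤ (h : ℤ) ∧ ¬ p ω i j) then 1 else 0) ≤ τ) :
    E (fun ω => c₀ + 2 * ∑ i, ∑ j, if (|U ω i - U ω j| ≤ (h : ℤ) ∧ ¬ p ω i j) then (1 : ℝ) else 0) ≤ c₀ + 2 * ((k : ℝ) ^ 2 * τ) := by
  rw [hE.add, hE.const, hE.smul, hE.sum]
  have h1 : ∀ i ∈ (univ : Finset (Fin k)), E (fun ω => ∑ j, if (|U ω i - U ω j| ≤ (h : ℤ) ∧ ¬ p ω i j) then (1 : ℝ) else 0) ≤ k * τ := by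
    intro i _
    rw [hE.sum]
    refine (sum_le_sum fun j _ => hp i j).trans (le_of_eq ?_)
    rw [sum_const, card_univ, Fintype.card_fin, nsmul_eq_mul]
  have h2 := sum_le_sum h1
  rw [sum_const, card_univ, Fintype.card_fin, nsmul_eq_mul] at h2
  have : (k : ℝ) * (k * τ) = (k : ℝ) ^ 2 * τ := by ring
  rw [this] at h2
  linarith

/-- the pattern of equalities -/
def eqP (u : Fin k → ℤ) (i j : Fin k) : Prop := u i = u j

/-- **The joint law of the exponents and of the pattern of the mergings, ordered forms.** -/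
theorem BL_sorted (k : ℕ) {ε : ℝ} (hε : 0 < ε) : ∃ c : ℝ, 0 < c ∧ ∀ᶠ t : ℕ in atTop,
    ∀ (a : Fin k → ℕ) (r : Fin k → ℤ), Monotone a → Small a r c t → ∀ f : (Fin k → ℝ) → (Fin k → Fin k → Prop) → ℝ, Adm f →
      |ex t (fun m => f (fun i => (AA a r t m i : ℝ) / √ (t : ℝ)) (Mg a r t m)) - cw (fW f t) t (fun i => (a i : ℤ))| ≤ ε := by
  classical
  obtain ⟨K, hK⟩ : ∃ K : ℝ, K = (k : ℝ) ^ 2 + 1 := ⟨_, rfl⟩
  have hk0 : (0 : ℝ) ≤ k := by positivity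
  have hK1 : 1 ≤ K := by rw [hK]; nlinarith
  have hkK : (k : ℝ) ≤ K := by rw [hK]; nlinarith
  have hkK2 : (k : ℝ) ^ 2 ≤ K := by rw [hK]; linarith
  obtain ⟨M, hM⟩ : ∃ M : ℝ, M = √ (2 * K / ε) + 1 := ⟨_, rfl⟩
  have hM0 : 0 < M := by rw [hM]; positivity
  have hM2 : 2 * K / ε ≤ M ^ 2 := by
    have h1 : √ (2 * K / ε) ^ 2 = 2 * K / ε := Real.sq_sqrt (by positivity)
    have h2 := Real.sqrt_nonneg (2 * K / ε)
    rw [hM]; nlinarith
  obtain ⟨β, hβ, c₁, hc₁, l1⟩ := close_states (ε := ε / (16 * K)) (by positivity)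
  obtain ⟨η, hη⟩ : ∃ η : ℝ, η = min (β / 2) (ε / (64 * K)) := ⟨_, rfl⟩
  have hη0 : 0 < η := by rw [hη]; exact lt_min (by positivity) (by positivity)
  have hηβ : 2 * η ≤ β := by
    have : η ≤ β / 2 := by rw [hη]; exact min_le_left _ _
    linarith
  have hηε : K * η ≤ ε / 64 := by
    have : η ≤ ε / (64 * K) := by rw [hη]; exact min_le_right _ _
    calc K * η ≤ K * (ε / (64 * K)) := mul_le_mul_of_nonneg_left this (by linarith)
      _ = ε / 64 := by field_simp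
  obtain ⟨J₀, hJ₀⟩ : ∃ J₀ : ℕ, J₀ = ⌈(2 * M + 5) / η⌉₊ + 2 := ⟨_, rfl⟩
  have hJ₀1 : (0 : ℝ) < J₀ := by rw [hJ₀]; positivity
  obtain ⟨c₂, hc₂, l2⟩ := cdf_all k (ε := ε / (8 * ((J₀ : ℝ) ^ k * 2 ^ k))) (by positivity)
  refine ⟨min c₁ c₂, lt_min hc₁ hc₂, ?_⟩
  have hsq : Tendsto (fun t : ℕ => √ (t : ℝ)) atTop atTop := Real.tendsto_sqrt_atTop.comp tendsto_natCast_atTop_atTop
  filter_upwards [l1, l2, eventually_ge_atTop 1, hsq.eventually_ge_atTop (1 / η), hsq.eventually_ge_atTop (64 * K / ε)]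
    with t b1 b2 ht1 ht2 ht3
  intro a r ha hs f hf
  have hst1 : 1 ≤ √ (t : ℝ) := by rw [Real.one_le_sqrt]; exact_mod_cast ht1
  have hst : 0 < √ (t : ℝ) := by linarith
  obtain ⟨h, hh⟩ : ∃ h : ℕ, h = ⌈η * √ (t : ℝ)⌉₊ := ⟨_, rfl⟩
  obtain ⟨R, hR⟩ : ∃ R : ℕ, R = ⌈M * √ (t : ℝ)⌉₊ := ⟨_, rfl⟩
  have hh1 : 1 ≤ h := by rw [hh]; exact Nat.one_le_ceil_iff.2 (by positivity)
  rw [div_le_iff₀ hη0] at ht2
  have hhs : (h : ℝ) ≤ 2 * η * √ (t : ℝ) := by
    have := Nat.ceil_lt_add_one (show 0 ≤ η * √ (t : ℝ) by positivity)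
    rw [← hh] at this
    linarith
  have hhd : (h : ℝ) / √ (t : ℝ) ≤ 2 * η := by rw [div_le_iff₀ hst]; exact hhs
  -- the comparison
  have cmp := compare (isE_ex t) (isE_cw t (fun i => (a i : ℤ))) (fun m => AA a r t m) (fun u => u) hh1
    (fun i => ((a i : ℤ) + (t / 2 : ℕ) - R - 1) / (h : ℤ)) ((2 * R + 3) / h + 2) (δ := ε / (8 * ((J₀ : ℝ) ^ k * 2 ^ k)))
    (fun c _ S => b2 a r ha (hs.mono (min_le_right _ _)) (yv h c S)) (F := fC f t h) (fun c => hf.1 _ _)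
    (fun m => f (fun i => (AA a r t m i : ℝ) / √ (t : ℝ)) (Mg a r t m))
    (fun m => h / √ (t : ℝ) + 2 * ∑ i, ∑ j, if (|AA a r t m i - AA a r t m j| ≤ (h : ℤ) ∧ ¬ Mg a r t m i j) then (1 : ℝ) else 0)
    (fW f t)
    (fun u => h / √ (t : ℝ) + 2 * ∑ i, ∑ j, if (|u i - u j| ≤ (h : ℤ) ∧ ¬ eqP u i j) then (1 : ℝ) else 0)
    (fun m => point_near hf hh1 ht1 (AA a r t m) (Mg a r t m) (fun i j hij => hij.1))
    (fun u => point_near hf hh1 ht1 u (eqP u) (fun i j hij => hij))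
  -- the error terms
  have e1 := err_sum (isE_ex t) (fun m => AA a r t m) (fun m => Mg a r t m) h (h / √ (t : ℝ)) (τ := ε / (16 * K)) (by
    intro i j
    have h1 := b1 k a r (hs.mono (min_le_left _ _)) i j
    rw [pb_dec] at h1
    refine le_trans (ex_mono ?_) h1
    intro m
    by_cases g : |AA a r t m i - AA a r t m j| ≤ (h : ℤ) ∧ ¬ Mg a r t m i j
    · have g2 : |(AA a r t m i : ℝ) - AA a r t m j| ≤ β * √ (t : ℝ) := by
        have : ((|AA a r t m i - AA a r t m j| : ℤ) : ℝ) ≤ ((h : ℤ) : ℝ) := by exact_mod_cast g.1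
        push_cast at this
        refine this.trans (hhs.trans ?_)
        exact mul_le_mul_of_nonneg_right hηβ hst.le
      rw [if_pos g, if_pos ⟨g2, g.2⟩]
    · rw [if_neg g]
      split_ifs <;> norm_num)
  have e2 := err_sum (isE_cw t (fun i => (a i : ℤ))) (fun u => u) (fun u i j => eqP u i j) h (h / √ (t : ℝ))
    (τ := (2 * h + 1) / √ (t : ℝ)) (by
    intro i j
    have h1 := pair_close ht1 j i h (fun i => (a i : ℤ))
    refine le_trans (le_of_eq ?_) h1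
    congr 1
    funext u
    have : (|u i - u j| ≤ (h : ℤ) ∧ ¬ eqP u i j) ↔ (u j ≠ u i ∧ |u i - u j| ≤ (h : ℤ)) := by
      unfold eqP
      constructor
      · rintro ⟨g1, g2⟩; exact ⟨fun g => g2 g.symm, g1⟩
      · rintro ⟨g1, g2⟩; exact ⟨g2, fun g => g1 g.symm⟩
    simp only [this])
  have e3 := win_tail (isE_ex t) (fun m => AA a r t m) hh1 hR (fun i => (a i : ℤ)) (τ := 1 / (4 * M ^ 2))
    (fun i => tail_A a r i ht1 hM0)
  have e4 := win_tail (isE_cw t (fun i => (a i : ℤ))) (fun u => u) hh1 hR (fun i => (a i : ℤ)) (τ := 1 / (4 * M ^ 2))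
    (fun i => tail_single i ht1 hM0 (fun i => (a i : ℤ)))
  have e5 : ((((2 * R + 3) / h + 2 : ℕ) : ℝ)) ^ k * (2 ^ k * (ε / (8 * ((J₀ : ℝ) ^ k * 2 ^ k)))) ≤ ε / 8 := by
    have h1 := J_bound hM0 hη0 ht1 hR hh
    rw [← hJ₀] at h1
    have h2 : ((((2 * R + 3) / h + 2 : ℕ) : ℝ)) ^ k ≤ (J₀ : ℝ) ^ k := pow_le_pow_left₀ (by positivity) (by exact_mod_cast h1) k
    calc ((((2 * R + 3) / h + 2 : ℕ) : ℝ)) ^ k * (2 ^ k * (ε / (8 * ((J₀ : ℝ) ^ k * 2 ^ k)))) ≤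
        (J₀ : ℝ) ^ k * (2 ^ k * (ε / (8 * ((J₀ : ℝ) ^ k * 2 ^ k)))) := mul_le_mul_of_nonneg_right h2 (by positivity)
      _ = ε / 8 := by field_simp
  -- numbers
  have n1 : (k : ℝ) * (1 / (4 * M ^ 2)) ≤ ε / 8 := by
    rw [mul_one_div, div_le_iff₀ (by positivity)]
    rw [div_le_iff₀ hε] at hM2
    nlinarith
  have n2 : (k : ℝ) ^ 2 * (ε / (16 * K)) ≤ ε / 16 := by
    calc (k : ℝ) ^ 2 * (ε / (16 * K)) ≤ K * (ε / (16 * K)) := mul_le_mul_of_nonneg_right hkK2 (by positivity)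
      _ = ε / 16 := by field_simp
  have n3 : (k : ℝ) ^ 2 * ((2 * h + 1) / √ (t : ℝ)) ≤ 5 * ε / 64 := by
    have g1 : (2 * (h : ℝ) + 1) / √ (t : ℝ) ≤ 4 * η + 1 / √ (t : ℝ) := by
      rw [add_div, mul_div_assoc]
      linarith
    rw [div_le_iff₀ hε] at ht3
    have g2 : K * (1 / √ (t : ℝ)) ≤ ε / 64 := by
      rw [mul_one_div, div_le_iff₀ hst]
      linarith
    calc (k : ℝ) ^ 2 * ((2 * h + 1) / √ (t : ℝ)) ≤ K * (4 * η + 1 / √ (t : ℝ)) :=
          mul_le_mul hkK2 g1 (by positivity) (by linarith)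
      _ = 4 * (K * η) + K * (1 / √ (t : ℝ)) := by ring
      _ ≤ _ := by linarith
  have n4 : 2 * η ≤ ε / 32 := by
    have : η ≤ K * η := le_mul_of_one_le_left hη0.le hK1
    linarith
  refine cmp.trans ?_
  linarith

/-- **The joint law of the exponents and of the pattern of the mergings.** -/
theorem BL_all (k : ℕ) {ε : ℝ} (hε : 0 < ε) : ∃ c : ℝ, 0 < c ∧ ∀ᶠ t : ℕ in atTop,
    ∀ (a : Fin k → ℕ) (r : Fin k → ℤ), Small a r c t → ∀ f : (Fin k → ℝ) → (Fin k → Fin k → Prop) → ℝ, Adm f →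
      |ex t (fun m => f (fun i => (AA a r t m i : ℝ) / √ (t : ℝ)) (Mg a r t m)) - cw (fW f t) t (fun i => (a i : ℤ))| ≤ ε := by
  obtain ⟨c, hc, h⟩ := BL_sorted k hε
  refine ⟨c, hc, ?_⟩
  filter_upwards [h] with t b
  intro a r hs f hf
  obtain ⟨σ, hσ⟩ : ∃ σ : Equiv.Perm (Fin k), σ = Tuple.sort a := ⟨_, rfl⟩
  have hm : Monotone (fun i => a (σ i)) := by rw [hσ]; exact Tuple.monotone_sort a
  have hf' : Adm (fun (u : Fin k → ℝ) (p : Fin k → Fin k → Prop) => f (fun i => u (σ.symm i)) (fun i j => p (σ.symm i) (σ.symm j))) := by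
    refine ⟨fun u p => hf.1 _ _, fun u v p => (hf.2 _ _ _).trans ?_⟩
    rw [pi_norm_le_iff_of_nonneg (norm_nonneg _)]
    intro i
    exact norm_le_pi_norm (u - v) (σ.symm i)
  have key := b (fun i => a (σ i)) (fun i => r (σ i)) hm (fun i => hs (σ i)) _ hf'
  have e1 : ∀ m i, AA (fun i => a (σ i)) (fun i => r (σ i)) t m (σ.symm i) = AA a r t m i := by
    intro m i
    unfold AA Lf
    simp
  have e2 : ∀ m i j, Mg (fun i => a (σ i)) (fun i => r (σ i)) t m (σ.symm i) (σ.symm j) ↔ Mg a r t m i j := by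
    intro m i j
    unfold Mg AA Lf
    simp
  have e3 : (fun m => f (fun i => (AA (fun i => a (σ i)) (fun i => r (σ i)) t m (σ.symm i) : ℝ) / √ (t : ℝ))
      (fun i j => Mg (fun i => a (σ i)) (fun i => r (σ i)) t m (σ.symm i) (σ.symm j))) =
      fun m => f (fun i => (AA a r t m i : ℝ) / √ (t : ℝ)) (Mg a r t m) := by
    funext m
    have : (fun i j => Mg (fun i => a (σ i)) (fun i => r (σ i)) t m (σ.symm i) (σ.symm j)) = Mg a r t m := by
      funext i j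
      exact propext (e2 m i j)
    rw [this]
    simp only [e1]
  rw [e3] at key
  have e4 := cw_perm σ (fW (fun (u : Fin k → ℝ) (p : Fin k → Fin k → Prop) =>
    f (fun i => u (σ.symm i)) (fun i j => p (σ.symm i) (σ.symm j))) t) t (fun i => (a i : ℤ))
  rw [e4] at key
  have e5 : (fun u : Fin k → ℤ => fW (fun (u : Fin k → ℝ) (p : Fin k → Fin k → Prop) =>
      f (fun i => u (σ.symm i)) (fun i j => p (σ.symm i) (σ.symm j))) (t : ℝ) (fun i => u (σ i))) = fW f t := by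
    funext u
    unfold fW
    simp
  rw [e5] at key
  exact key

end Pool.Agent.J4H26.KT
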