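import Mathlib
import Pool.Agent.J4H26.KT.E
import Pool.Agent.J4H39.K8
import Pool.Agent.J4H39.L5

set_option autoImplicit false

/-! The law on intervals shorter than `2 ^ t`, up to the full lifetime. -/

namespace Pool.Agent.J4H26.KT

open Finset Filter Topology
open Pool.Agent.J4H39 (T od Per ex pb ex_zero ex_succ ex_congr ex_add ex_mul ex_mono ex_const kk kk_pos pb_nonneg stP rn Di yy pb_mono
  pb_per per_rn rn_Di rel_yy pb_affine pow3_odd pb_le_one pr pr_le stK GK lb Gf TK TTK TTK_all th0 rn_stK_apply rel_rn rel_eq id1 ns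
  root20 rpow_z exp_z succ20 pow_tN tN_tendsto tN U ns_U ns_law U_erf_half Erf GS th0_gt pairs_law)
open Pool.Agent.J4H26.AF

variable {k : ℕ}

/-- the states of the forms -/
def st (a : Fin k → ℕ) (r : Fin k → ℤ) : Fin k → ℤ × ℤ := fun i => ((a i : ℤ), r i)

theorem exp_st (a : Fin k → ℕ) (r : Fin k → ℤ) (t : ℕ) (m : ℤ) (i : Fin k) :
    (od t m : ℤ) + (rn stK t (st a r) m i).1 = AA a r t m i := by
  rw [rn_stK_apply]
  have h := (rel_rn (rel_yy (a i) (r i) m) t).2
  have e : st a r i = ((a i : ℤ), r i) := rfl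
  rw [e, h]
  unfold AA Lf yy
  ring

theorem rel_st (a : Fin k → ℕ) (r : Fin k → ℤ) (t : ℕ) (m : ℤ) (i : Fin k) :
    Pool.Agent.J4H39.Rel (rn stK t (st a r) m i) (T^[t] m) (T^[t] (Lf a r i m)) := by
  rw [rn_stK_apply]
  exact (rel_rn (rel_yy (a i) (r i) m) t).1

theorem eq_st (a : Fin k → ℕ) (r : Fin k → ℤ) (t : ℕ) (m : ℤ) (i j : Fin k) :
    rn stK t (st a r) m i = rn stK t (st a r) m j ↔ Mg a r t m i j := by
  have hi := rel_st a r t m i
  have hj := rel_st a r t m j
  have ei := exp_st a r t m i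
  have ej := exp_st a r t m j
  unfold Mg
  constructor
  · intro h
    refine ⟨by rw [← ei, ← ej, h], ?_⟩
    rw [h] at hi
    unfold Pool.Agent.J4H39.Rel at hi hj
    have h3 : (3 : ℤ) ^ (-(rn stK t (st a r) m j).1).toNat ≠ 0 := by positivity
    exact mul_left_cancel₀ h3 (hi.trans hj.symm)
  · rintro ⟨h1, h2⟩
    rw [h2] at hi
    exact rel_eq hi hj (by omega)

theorem Gf_st (g : (Fin k → ℤ) → (Fin k → Fin k → Prop) → ℝ) (a : Fin k → ℕ) (r : Fin k → ℤ) (t : ℕ) (m : ℤ) :
    Gf g (lb stK t (st a r) m) = g (AA a r t m) (Mg a r t m) := by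
  unfold Gf lb
  congr 1
  · funext i
    exact exp_st a r t m i
  · funext i j
    exact propext (eq_st a r t m i j)

/-- the transfer for functions with values in `[-1, 1]` -/
theorem TK_abs {t a₀ b₀ : ℕ} {M ε : ℝ} (h : TK k t a₀ b₀ M ε) (a : Fin k → ℕ) (r : Fin k → ℤ) (hs : GK a₀ b₀ (st a r))
    (g : (Fin k → ℤ) → (Fin k → Fin k → Prop) → ℝ) (hg : ∀ A p, |g A p| ≤ 1) (x : ℤ) (X : ℕ) (hX : M ≤ X) :
    |∑ v ∈ range X, g (AA a r t (x + (v : ℕ))) (Mg a r t (x + (v : ℕ))) - X * ex t (fun y => g (AA a r t y) (Mg a r t y))| ≤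
      2 * ε * X := by
  have h1 := h (st a r) (fun i => by unfold st; positivity) hs (fun A p => (1 + g A p) / 2)
    (fun A p => by have := abs_le.1 (hg A p); linarith) (fun A p => by have := abs_le.1 (hg A p); linarith) x X hX
  simp only [Gf_st] at h1
  have e1 : ∑ v ∈ range X, (1 + g (AA a r t (x + (v : ℕ))) (Mg a r t (x + (v : ℕ)))) / 2 =
      (X + ∑ v ∈ range X, g (AA a r t (x + (v : ℕ))) (Mg a r t (x + (v : ℕ)))) / 2 := by
    rw [← sum_div, sum_add_distrib]
    simp
  have e2 : ex t (fun y => (1 + g (AA a r t y) (Mg a r t y)) / 2) = (1 + ex t (fun y => g (AA a r t y) (Mg a r t y))) / 2 := by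
    have : (fun y => (1 + g (AA a r t y) (Mg a r t y)) / 2) = fun y => (1 / 2) * (1 + g (AA a r t y) (Mg a r t y)) := by
      funext y; ring
    rw [this, ex_mul, ex_add, ex_const]
    ring
  rw [e1, e2] at h1
  have e3 : (X + ∑ v ∈ range X, g (AA a r t (x + (v : ℕ))) (Mg a r t (x + (v : ℕ)))) / 2 -
      X * ((1 + ex t (fun y => g (AA a r t y) (Mg a r t y))) / 2) =
      (∑ v ∈ range X, g (AA a r t (x + (v : ℕ))) (Mg a r t (x + (v : ℕ))) - X * ex t (fun y => g (AA a r t y) (Mg a r t y))) / 2 := by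
    ring
  rw [e3, abs_div, abs_two] at h1
  linarith

/-- probability of not having merged, for two of the forms -/
theorem pb_Mg (a : Fin k → ℕ) (r : Fin k → ℤ) (t : ℕ) {i j : Fin k} (hij : a i ≤ a j) :
    pb t (fun m => ¬ Mg a r t m i j) = ns t (((a j - a i : ℕ) : ℤ), RR a r i j) := by
  set D := a j - a i with hD
  set R := RR a r i j with hR
  have hQper : Per t (fun y => rn stP t ((D : ℤ), R) y ≠ (0, 0)) := by
    intro x u
    simp only
    rw [per_rn stP _ (le_refl t) x u]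
  unfold ns
  rw [← pb_affine hQper (pow3_odd (a i)) (r i)]
  congr 1
  funext m
  apply propext
  apply not_congr
  have e0 : Di D R t (3 ^ a i * m + r i) = AA a r t m j - AA a r t m i := by
    unfold AA
    rw [Lf_yy a r hij]
    unfold Di
    have e2 : Lf a r i m = 3 ^ a i * m + r i := rfl
    rw [← hD, ← hR, e2]
    have : (D : ℤ) = a j - a i := by rw [hD]; push_cast [hij]; ring
    omega
  have e1 := rn_Di D R (3 ^ a i * m + r i) t
  have e3 := (rel_rn (rel_yy D R (3 ^ a i * m + r i)) t).1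
  have e4 : yy D R (3 ^ a i * m + r i) = Lf a r j m := by rw [Lf_yy a r hij]; rfl
  rw [e4] at e3
  constructor
  · rintro ⟨h1, h2⟩
    have h3 : Pool.Agent.J4H39.Rel ((0 : ℤ), (0 : ℤ)) (T^[t] (3 ^ a i * m + r i)) (T^[t] (Lf a r j m)) := by
      unfold Pool.Agent.J4H39.Rel
      have : T^[t] (3 ^ a i * m + r i) = T^[t] (Lf a r j m) := h2
      rw [this]; simp
    apply rel_eq e3 h3
    simp only
    omega
  · intro h
    rw [h] at e1
    simp only at e1
    refine ⟨by omega, ?_⟩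
    have h2 := (Pool.Agent.J4H39.merge_of_rn (rel_yy D R (3 ^ a i * m + r i)) h).1
    rw [e4] at h2
    exact h2

end Pool.Agent.J4H26.KT
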