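import Mathlib
import Pool.Agent.J4H26.KT.F

set_option autoImplicit false

/-! The law on intervals of length `2 ^ (κ t)`, `κ > θ₀`. -/

namespace Pool.Agent.J4H26.KT

open Finset Filter Topology
open Pool.Agent.J4H39 (T od Per ex pb ex_zero ex_succ ex_congr ex_add ex_mul ex_mono ex_const kk kk_pos pb_nonneg stP rn Di yy pb_mono
  pb_per per_rn rn_Di rel_yy pb_affine pow3_odd pb_le_one pr pr_le stK GK lb Gf TK TTK TTK_all th0 rn_stK_apply rel_rn rel_eq id1 ns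
  root20 rpow_z exp_z succ20 pow_tN tN_tendsto tN U ns_U ns_law U_erf_half Erf GS th0_gt pairs_law pairs_fixed TT_all eta_small poly19
  exp_beats id1_nonneg id1_le_one gs_pair)
open Pool.Agent.J4H26.AF

variable {k : ℕ}

/-- the probability of not having merged, asymptotically -/
theorem ns_erf {ε : ℝ} (hε : 0 < ε) (c : ℕ) : ∃ t₀ : ℕ, ∀ t : ℕ, t₀ ≤ t → ∀ z : ℕ, z ^ 20 ≤ t → t < (z + 1) ^ 20 →
    ∀ (i : ℕ) (r : ℤ), GS (c * z ^ 12) (c * z ^ 14) ((i : ℤ), r) → |ns t ((i : ℤ), r) - Erf (i / √ t)| ≤ ε := by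
  obtain ⟨c', hc', t₂, ht₂⟩ := ns_law (show 0 < ε / 2 by positivity)
  obtain ⟨t₃, ht₃⟩ := U_erf_half (show 0 < ε / 2 by positivity)
  obtain ⟨z₀, hz₀⟩ := eventually_atTop.1 ((eventually_ge_atTop (max 1 c)).and (eventually_ge_atTop ⌈c / c'⌉₊))
  refine ⟨max (max t₂ t₃) (z₀ ^ 20), ?_⟩
  intro t ht z hr1 hr2 i r hs
  have h2 : t₂ ≤ t := (le_max_left _ _).trans ((le_max_left _ _).trans ht)
  have h3 : t₃ ≤ t := (le_max_right _ _).trans ((le_max_left _ _).trans ht)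
  have h5 : z₀ ^ 20 ≤ t := (le_max_right _ _).trans ht
  have hz : z₀ ≤ z := by
    by_contra hcon
    have h7 : (z + 1) ^ 20 ≤ z₀ ^ 20 := Nat.pow_le_pow_left (by omega) 20
    exact absurd (hr2.trans_le h7) (not_lt.2 h5)
  obtain ⟨e0, e4⟩ := hz₀ z hz
  have e1 : 1 ≤ z := (le_max_left _ _).trans e0
  have e1' : c ≤ z := (le_max_right _ _).trans e0
  have hzc : (c : ℝ) / c' ≤ z := (Nat.le_ceil _).trans (Nat.cast_le.2 e4)
  rw [div_le_iff₀ hc'] at hzc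
  have hz1 : (1 : ℝ) ≤ z := by exact_mod_cast e1
  have hzt : (z : ℝ) ^ 20 ≤ t := by
    have : (((z ^ 20 : ℕ)) : ℝ) ≤ t := Nat.cast_le.2 hr1
    rwa [Nat.cast_pow] at this
  have k1 := ns_U hc' ht₂ h2 hzt hz1 hzc i r hs
  have hit : i ≤ t := by
    have h8 : |((i : ℤ), r).1| ≤ ((c * z ^ 12 : ℕ) : ℤ) := hs.1
    have h9 : i ≤ c * z ^ 12 := by
      simp only at h8
      rw [Nat.abs_cast] at h8
      exact_mod_cast h8
    calc i ≤ c * z ^ 12 := h9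
      _ ≤ z * z ^ 12 := Nat.mul_le_mul_right _ e1'
      _ = z ^ 13 := by ring
      _ ≤ z ^ 20 := Nat.pow_le_pow_right e1 (by norm_num)
      _ ≤ t := hr1
  have k2 := ht₃ t h3 i hit
  have := abs_sub_le (ns t ((i : ℤ), r)) (U (t / 2) i) (Erf ((i : ℝ) / √ t))
  linarith

/-- pairs, on intervals -/
theorem pairs_int {κ ε : ℝ} (hκ : th0 < κ) (hε : 0 < ε) : ∃ t₀ : ℕ, ∀ t : ℕ, t₀ ≤ t → ∀ z : ℕ, z ^ 20 ≤ t → t < (z + 1) ^ 20 →
    ∀ (x : ℤ) (X : ℕ), (2 : ℝ) ^ (κ * t) ≤ X → ∀ (a b : ℕ) (r s : ℤ), a ≤ b → b ≤ 2 * z ^ 12 → |r| ≤ 4 ^ (2 * z ^ 14) →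
      |s| ≤ 4 ^ (2 * z ^ 14) →
    |∑ v ∈ range X, id1 (T^[t] (3 ^ a * (x + (v : ℕ)) + r) = T^[t] (3 ^ b * (x + (v : ℕ)) + s)) -
      X * (1 - Erf (((b - a : ℕ) : ℝ) / √ t))| ≤ ε * X := by
  have hth := th0_gt
  obtain ⟨κ', hκ'⟩ : ∃ κ', κ' = (κ + th0) / 2 := ⟨_, rfl⟩
  obtain ⟨δ, hδ⟩ : ∃ δ, δ = (κ - th0) / 2 := ⟨_, rfl⟩
  have hκ0 : th0 < κ' := by rw [hκ']; linarith
  have hδ0 : 0 < δ := by rw [hδ]; linarith
  have hκδ : κ' + δ = κ := by rw [hκ', hδ]; ring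
  obtain ⟨t₁, ht₁⟩ := TT_all hκ0 (ε / 8) (by positivity) 5
  obtain ⟨c', hc', t₂, ht₂⟩ := ns_law (show 0 < ε / 8 by positivity)
  obtain ⟨t₃, ht₃⟩ := U_erf_half (show 0 < ε / 8 by positivity)
  obtain ⟨z₀, hz₀⟩ := eventually_atTop.1 (((eta_small 1 (ε := ε / 64) (by positivity)).and (poly19 hδ0)).and
    ((eventually_ge_atTop 40).and (eventually_ge_atTop ⌈5 / c'⌉₊)))
  obtain ⟨t₄, ht₄⟩ := eventually_atTop.1 (exp_beats (64 / ε) (show 0 < κ' by linarith))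
  refine ⟨max (max (max t₁ t₂) (max t₃ t₄)) (z₀ ^ 20), ?_⟩
  intro t ht z hr1 hr2 x X hX a b r s hab hb2 hr' hs'
  have h1 : t₁ ≤ t := (le_max_left _ _).trans ((le_max_left _ _).trans ((le_max_left _ _).trans ht))
  have h2 : t₂ ≤ t := (le_max_right _ _).trans ((le_max_left _ _).trans ((le_max_left _ _).trans ht))
  have h3 : t₃ ≤ t := (le_max_left _ _).trans ((le_max_right _ _).trans ((le_max_left _ _).trans ht))
  have h4 : t₄ ≤ t := (le_max_right _ _).trans ((le_max_right _ _).trans ((le_max_left _ _).trans ht))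
  have h5 : z₀ ^ 20 ≤ t := (le_max_right _ _).trans ht
  have hz : z₀ ≤ z := by
    by_contra hcon
    have h7 : (z + 1) ^ 20 ≤ z₀ ^ 20 := Nat.pow_le_pow_left (by omega) 20
    exact absurd (hr2.trans_le h7) (not_lt.2 h5)
  obtain ⟨⟨e1, e2⟩, e3, e4⟩ := hz₀ z hz
  have ht2 : t ≤ 2 * z ^ 20 := hr2.le.trans (succ20 e3)
  have hp : ∀ (i : ℕ) (r : ℤ), GS (5 * z ^ 12) (5 * z ^ 14) ((i : ℤ), r) → |ns t ((i : ℤ), r) - U (t / 2) i| ≤ ε / 8 := by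
    intro i r hs
    have hzc : 5 / c' ≤ z := (Nat.le_ceil _).trans (Nat.cast_le.2 e4)
    rw [div_le_iff₀ hc'] at hzc
    have hz1 : (1 : ℝ) ≤ z := by
      have : (1 : ℕ) ≤ z := by omega
      exact_mod_cast this
    have hzt : (z : ℝ) ^ 20 ≤ t := by
      have : (((z ^ 20 : ℕ)) : ℝ) ≤ t := Nat.cast_le.2 hr1
      rwa [Nat.cast_pow] at this
    exact ns_U hc' ht₂ h2 hzt hz1 (by push_cast; exact hzc) i r hs
  have hTA := ht₁ t h1 z hr1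
  have heta := e1 t hr1 ht2
  rw [← hκδ] at hX
  have hκ5 : 1 / 5 < κ' := by clear hr2 hr1 h5; linarith
  exact pairs_fixed hκ5 hδ0 hε hr1 e3 hTA heta e2 (ht₄ t h4) hX hp (fun d hd => ht₃ t h3 d hd) x hab hb2 hr' hs'

theorem arith3 {S₁ S₂ X E n ε : ℝ} (k1 : |S₁ - X * (1 - E)| ≤ ε / 8 * X) (k3 : |S₂ - X * (1 - n)| ≤ 2 * (ε / 8) * X)
    (k4 : |X * (1 - E) - X * (1 - n)| ≤ X * (ε / 8)) : S₁ - S₂ ≤ ε * X := by
  have h0 : 0 ≤ X * (ε / 8) := (abs_nonneg _).trans k4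
  rw [abs_le] at k1 k3 k4
  nlinarith [k1.1, k1.2, k3.1, k3.2, k4.1, k4.2]

/-- merging with unequal exponents is rare -/
theorem merge_unequal {κ ε : ℝ} (hκ : th0 < κ) (hε : 0 < ε) (k : ℕ) : ∃ t₀ : ℕ, ∀ t : ℕ, t₀ ≤ t → ∀ z : ℕ, z ^ 20 ≤ t →
    t < (z + 1) ^ 20 → ∀ (x : ℤ) (X : ℕ), (2 : ℝ) ^ (κ * t) ≤ X → ∀ (a : Fin k → ℕ) (r : Fin k → ℤ),
      (∀ i, a i ≤ 2 * z ^ 12 ∧ |r i| ≤ 4 ^ (2 * z ^ 14)) → ∀ i j : Fin k,
      ∑ v ∈ range X, id1 (T^[t] (Lf a r i (x + (v : ℕ))) = T^[t] (Lf a r j (x + (v : ℕ))) ∧ ¬ Mg a r t (x + (v : ℕ)) i j) ≤ ε * X := by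
  obtain ⟨t₁, ht₁⟩ := pairs_int hκ (show 0 < ε / 8 by positivity)
  obtain ⟨t₂, ht₂⟩ := ns_erf (show 0 < ε / 8 by positivity) 5
  obtain ⟨t₃, ht₃⟩ := TTK_all k κ hκ (ε / 8) (by positivity) 5
  obtain ⟨z₀, hz₀⟩ : ∃ z₀ : ℕ, z₀ = 40 := ⟨_, rfl⟩
  refine ⟨max (max t₁ t₂) (max t₃ (z₀ ^ 20)), ?_⟩
  intro t ht z hr1 hr2 x X hX a r har
  have h1 : t₁ ≤ t := (le_max_left _ _).trans ((le_max_left _ _).trans ht)
  have h2 : t₂ ≤ t := (le_max_right _ _).trans ((le_max_left _ _).trans ht)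
  have h3 : t₃ ≤ t := (le_max_left _ _).trans ((le_max_right _ _).trans ht)
  have h4 : z₀ ^ 20 ≤ t := (le_max_right _ _).trans ((le_max_right _ _).trans ht)
  have hz : 40 ≤ z := by
    rw [← hz₀]
    by_contra hcon
    have h7 : (z + 1) ^ 20 ≤ z₀ ^ 20 := Nat.pow_le_pow_left (by omega) 20
    exact absurd (hr2.trans_le h7) (not_lt.2 h4)
  clear h4 hz₀ ht
  have half : ∀ i j : Fin k, a i ≤ a j →
      ∑ v ∈ range X, id1 (T^[t] (Lf a r i (x + (v : ℕ))) = T^[t] (Lf a r j (x + (v : ℕ))) ∧ ¬ Mg a r t (x + (v : ℕ)) i j) ≤ ε * X := by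
    intro i j hij
    have hGS : GS (5 * z ^ 12) (5 * z ^ 14) (((a j - a i : ℕ) : ℤ), RR a r i j) :=
      gs_pair hz (a := a i) (b := a j) rfl (r := r i) (s := r j) rfl (har j).1 (har i).2 (har j).2
    have k1 := ht₁ t h1 z hr1 hr2 x X hX (a i) (a j) (r i) (r j) hij (har j).1 (har i).2 (har j).2
    have k2 := ht₂ t h2 z hr1 hr2 (a j - a i) (RR a r i j) hGS
    have hGK : GK (5 * z ^ 12) (5 * z ^ 14) (st a r) := by
      intro l
      have hl := har l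
      refine ⟨?_, ?_⟩
      · unfold st
        simp only
        rw [Nat.abs_cast]
        have : a l ≤ 5 * z ^ 12 := by omega
        exact_mod_cast this
      · unfold st
        simp only
        refine hl.2.trans (pow_le_pow_right₀ (by norm_num) ?_)
        omega
    have k3 := TK_abs (ht₃ t h3 z hr1) a r hGK (fun _ p => id1 (p i j)) (fun A p => by
      rw [abs_of_nonneg (id1_nonneg _)]; exact id1_le_one _) x X hX
    have e1 : ex t (fun y => id1 (Mg a r t y i j)) = 1 - ns t (((a j - a i : ℕ) : ℤ), RR a r i j) := by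
      rw [← pb_Mg a r t hij]
      change _ = 1 - ex t (fun y => id1 (¬ Mg a r t y i j))
      have : (fun y => id1 (Mg a r t y i j)) = fun y => 1 + (-1) * id1 (¬ Mg a r t y i j) := by
        funext y
        unfold id1
        by_cases h : Mg a r t y i j <;> simp [h]
      rw [this, ex_add, ex_mul, ex_const]
      ring
    rw [e1] at k3
    have e2 : ∀ v : ℕ, id1 (T^[t] (Lf a r i (x + (v : ℕ))) = T^[t] (Lf a r j (x + (v : ℕ))) ∧ ¬ Mg a r t (x + (v : ℕ)) i j) =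
        id1 (T^[t] (3 ^ a i * (x + (v : ℕ)) + r i) = T^[t] (3 ^ a j * (x + (v : ℕ)) + r j)) - id1 (Mg a r t (x + (v : ℕ)) i j) := by
      intro v
      have e3 : (T^[t] (3 ^ a i * (x + (v : ℕ)) + r i) = T^[t] (3 ^ a j * (x + (v : ℕ)) + r j)) ↔
        (T^[t] (Lf a r i (x + (v : ℕ))) = T^[t] (Lf a r j (x + (v : ℕ)))) := Iff.rfl
      rw [show (T^[t] (3 ^ a i * (x + (v : ℕ)) + r i) = T^[t] (3 ^ a j * (x + (v : ℕ)) + r j)) =
        (T^[t] (Lf a r i (x + (v : ℕ))) = T^[t] (Lf a r j (x + (v : ℕ)))) from rfl]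
      have e4 : Mg a r t (x + (v : ℕ)) i j → T^[t] (Lf a r i (x + (v : ℕ))) = T^[t] (Lf a r j (x + (v : ℕ))) := fun h => h.2
      unfold id1
      by_cases g1 : T^[t] (Lf a r i (x + (v : ℕ))) = T^[t] (Lf a r j (x + (v : ℕ)))
      · by_cases g2 : Mg a r t (x + (v : ℕ)) i j
        · simp [g1, g2]
        · simp [g1, g2]
      · have g2 : ¬ Mg a r t (x + (v : ℕ)) i j := fun h => g1 (e4 h)
        simp [g1, g2]
    simp only [e2]
    rw [sum_sub_distrib]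
    have hX0 : (0 : ℝ) ≤ X := Nat.cast_nonneg X
    have k4 : |(X : ℝ) * (1 - Erf (((a j - a i : ℕ) : ℝ) / √ t)) - X * (1 - ns t (((a j - a i : ℕ) : ℤ), RR a r i j))| ≤ X * (ε / 8) := by
      rw [← mul_sub, abs_mul, abs_of_nonneg hX0]
      apply mul_le_mul_of_nonneg_left _ hX0
      rw [show (1 - Erf (((a j - a i : ℕ) : ℝ) / √ t)) - (1 - ns t (((a j - a i : ℕ) : ℤ), RR a r i j)) =
        ns t (((a j - a i : ℕ) : ℤ), RR a r i j) - Erf (((a j - a i : ℕ) : ℝ) / √ t) by ring]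
      exact k2
    exact arith3 k1 k3 k4
  intro i j
  rcases le_total (a i) (a j) with hij | hij
  · exact half i j hij
  · refine le_trans (le_of_eq ?_) (half j i hij)
    apply sum_congr rfl
    intro v _
    congr 1
    apply propext
    rw [Mg_symm, eq_comm]

end Pool.Agent.J4H26.KT
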