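import Mathlib
import Pool.Agent.J4H26.KT.G

set_option autoImplicit false

/-! The joint law of the exponents and of the mergings on intervals of length `2 ^ (κ t)`. -/

namespace Pool.Agent.J4H26.KT

open Finset Filter Topology
open Pool.Agent.J4H39 (T od Per ex pb ex_zero ex_succ ex_congr ex_add ex_mul ex_mono ex_const kk kk_pos pb_nonneg stP rn Di yy pb_mono
  pb_per per_rn rn_Di rel_yy pb_affine pow3_odd pb_le_one pr pr_le stK GK lb Gf TK TTK TTK_all th0 rn_stK_apply rel_rn rel_eq id1 ns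
  root20 rpow_z exp_z succ20 pow_tN tN_tendsto tN U Erf GS th0_gt id1_nonneg id1_le_one)
open Pool.Agent.J4H26.AF

variable {k : ℕ}

/-- the condition on the forms -/
def Bz (z : ℕ) (a : Fin k → ℕ) (r : Fin k → ℤ) : Prop := ∀ i, a i ≤ 2 * z ^ 12 ∧ |r i| ≤ 4 ^ (2 * z ^ 14)

theorem Bz_small {c : ℝ} (hc : 0 < c) : ∃ z₀ : ℕ, ∀ z : ℕ, z₀ ≤ z → ∀ t : ℕ, z ^ 20 ≤ t → ∀ (a : Fin k → ℕ) (r : Fin k → ℤ),
    Bz z a r → Small a r c t := by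
  refine ⟨⌈2 / c⌉₊ + 1, ?_⟩
  intro z hz t hr1 a r har i
  have hz1 : (1 : ℝ) ≤ z := by
    have : 1 ≤ z := by omega
    exact_mod_cast this
  have hzc : 2 / c ≤ z := (Nat.le_ceil _).trans (by exact_mod_cast (by omega : ⌈2 / c⌉₊ ≤ z))
  rw [div_le_iff₀ hc] at hzc
  have hzt : (z : ℝ) ^ 20 ≤ t := by
    have : (((z ^ 20 : ℕ)) : ℝ) ≤ t := Nat.cast_le.2 hr1
    rwa [Nat.cast_pow] at this
  have q14 : 2 * (z : ℝ) ^ 14 ≤ c * t := by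
    calc 2 * (z : ℝ) ^ 14 ≤ (z * c) * (z : ℝ) ^ 14 := mul_le_mul_of_nonneg_right hzc (by positivity)
      _ = c * (z : ℝ) ^ 15 := by ring
      _ ≤ c * (z : ℝ) ^ 20 := mul_le_mul_of_nonneg_left (pow_le_pow_right₀ hz1 (by norm_num)) hc.le
      _ ≤ c * t := mul_le_mul_of_nonneg_left hzt hc.le
  obtain ⟨h1, h2⟩ := har i
  constructor
  · have h3 : (a i : ℝ) ≤ ((2 * z ^ 12 : ℕ) : ℝ) := Nat.cast_le.2 h1
    rw [Nat.cast_mul, Nat.cast_pow] at h3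
    refine h3.trans (le_trans ?_ q14)
    have : (z : ℝ) ^ 12 ≤ (z : ℝ) ^ 14 := pow_le_pow_right₀ hz1 (by norm_num)
    push_cast
    linarith
  · have h4 : 2 * z ^ 14 ≤ ⌊c * (t : ℝ)⌋₊ := by
      apply Nat.le_floor
      rw [Nat.cast_mul, Nat.cast_pow]
      exact_mod_cast q14
    have h5 : |(r i : ℝ)| ≤ 4 ^ (2 * z ^ 14) := by
      have : ((|r i| : ℤ) : ℝ) ≤ ((4 ^ (2 * z ^ 14) : ℤ) : ℝ) := Int.cast_le.2 h2
      rwa [Int.cast_abs, Int.cast_pow] at this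
    exact h5.trans (pow_le_pow_right₀ (by norm_num) h4)

theorem Bz_GK {z : ℕ} (hz : 1 ≤ z) {a : Fin k → ℕ} {r : Fin k → ℤ} (har : Bz z a r) : GK (5 * z ^ 12) (5 * z ^ 14) (st a r) := by
  intro l
  obtain ⟨h1, h2⟩ := har l
  generalize z ^ 12 = A at *
  generalize z ^ 14 = B at *
  refine ⟨?_, ?_⟩
  · unfold st
    simp only
    rw [abs_of_nonneg (by positivity)]
    have : a l ≤ 5 * A := by omega
    exact_mod_cast this
  · unfold st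
    simp only
    exact h2.trans (pow_le_pow_right₀ (by norm_num) (by omega))

/-- the pattern of the mergings -/
def Eqp (a : Fin k → ℕ) (r : Fin k → ℤ) (t : ℕ) (m : ℤ) (i j : Fin k) : Prop := T^[t] (Lf a r i m) = T^[t] (Lf a r j m)

theorem pat_diff {f : (Fin k → ℝ) → (Fin k → Fin k → Prop) → ℝ} (hf : Adm f) (a : Fin k → ℕ) (r : Fin k → ℤ) (t : ℕ) (m : ℤ)
    (u : Fin k → ℝ) : |f u (Eqp a r t m) - f u (Mg a r t m)| ≤
      2 * ∑ i, ∑ j, id1 (T^[t] (Lf a r i m) = T^[t] (Lf a r j m) ∧ ¬ Mg a r t m i j) := by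
  by_cases h : ∃ i j, T^[t] (Lf a r i m) = T^[t] (Lf a r j m) ∧ ¬ Mg a r t m i j
  · obtain ⟨i, j, hij⟩ := h
    have h1 : (1 : ℝ) ≤ ∑ i, ∑ j, id1 (T^[t] (Lf a r i m) = T^[t] (Lf a r j m) ∧ ¬ Mg a r t m i j) := by
      calc (1 : ℝ) = id1 (T^[t] (Lf a r i m) = T^[t] (Lf a r j m) ∧ ¬ Mg a r t m i j) := by
            unfold id1; rw [if_pos hij]
        _ ≤ ∑ j, id1 (T^[t] (Lf a r i m) = T^[t] (Lf a r j m) ∧ ¬ Mg a r t m i j) :=
            single_le_sum (f := fun j => id1 (T^[t] (Lf a r i m) = T^[t] (Lf a r j m) ∧ ¬ Mg a r t m i j))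
              (fun _ _ => id1_nonneg _) (mem_univ j)
        _ ≤ _ := single_le_sum (f := fun i => ∑ j, id1 (T^[t] (Lf a r i m) = T^[t] (Lf a r j m) ∧ ¬ Mg a r t m i j))
              (fun _ _ => sum_nonneg fun _ _ => id1_nonneg _) (mem_univ i)
    have h2 := abs_le.1 (hf.1 u (Eqp a r t m))
    have h3 := abs_le.1 (hf.1 u (Mg a r t m))
    rw [abs_le]
    constructor <;> linarith
  · push Not at h
    have e : Eqp a r t m = Mg a r t m := by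
      funext i j
      apply propext
      exact ⟨fun h1 => h i j h1, fun h1 => h1.2⟩
    rw [e, sub_self, abs_zero]
    have : 0 ≤ ∑ i, ∑ j, id1 (T^[t] (Lf a r i m) = T^[t] (Lf a r j m) ∧ ¬ Mg a r t m i j) :=
      sum_nonneg fun _ _ => sum_nonneg fun _ _ => id1_nonneg _
    linarith

theorem fin_arith {S₁ S₂ X E W ε : ℝ} (hX : 0 ≤ X) (h1 : |S₁ - S₂| ≤ ε / 4 * X) (h2 : |S₂ - X * E| ≤ 2 * (ε / 8) * X)
    (h3 : |E - W| ≤ ε / 2) : |S₁ - X * W| ≤ ε * X := by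
  have h4 : |X * E - X * W| ≤ X * (ε / 2) := by
    rw [← mul_sub, abs_mul, abs_of_nonneg hX]
    exact mul_le_mul_of_nonneg_left h3 hX
  rw [abs_le] at h1 h2 h4 ⊢
  constructor <;> nlinarith [h1.1, h1.2, h2.1, h2.2, h4.1, h4.2]

/-- **The joint law on intervals.** -/
theorem BL_int (k : ℕ) {κ ε : ℝ} (hκ : th0 < κ) (hε : 0 < ε) : ∃ t₀ : ℕ, ∀ t : ℕ, t₀ ≤ t → ∀ z : ℕ, z ^ 20 ≤ t →
    t < (z + 1) ^ 20 → ∀ (x : ℤ) (X : ℕ), (2 : ℝ) ^ (κ * t) ≤ X → ∀ (a : Fin k → ℕ) (r : Fin k → ℤ), Bz z a r →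
      ∀ f : (Fin k → ℝ) → (Fin k → Fin k → Prop) → ℝ, Adm f →
      |∑ v ∈ range X, f (fun i => (AA a r t (x + (v : ℕ)) i : ℝ) / √ (t : ℝ)) (Eqp a r t (x + (v : ℕ))) -
        X * cw (fW f t) t (fun i => (a i : ℤ))| ≤ ε * X := by
  obtain ⟨K, hK⟩ : ∃ K : ℝ, K = 8 * ((k : ℝ) ^ 2 + 1) := ⟨_, rfl⟩
  have hK0 : 0 < K := by rw [hK]; positivity
  obtain ⟨t₁, ht₁⟩ := merge_unequal hκ (show 0 < ε / K by positivity) k
  obtain ⟨c, hc, hBL⟩ := BL_all k (show 0 < ε / 2 by positivity)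
  obtain ⟨t₂, ht₂⟩ := eventually_atTop.1 hBL
  obtain ⟨t₃, ht₃⟩ := TTK_all k κ hκ (ε / 8) (by positivity) 5
  obtain ⟨z₁, hz₁⟩ := Bz_small (k := k) hc
  obtain ⟨z₀, hz₀⟩ : ∃ z₀ : ℕ, z₀ = max z₁ 1 := ⟨_, rfl⟩
  refine ⟨max (max t₁ t₂) (max t₃ (z₀ ^ 20)), ?_⟩
  intro t ht z hr1 hr2 x X hX a r har f hf
  have h1 : t₁ ≤ t := (le_max_left _ _).trans ((le_max_left _ _).trans ht)
  have h2 : t₂ ≤ t := (le_max_right _ _).trans ((le_max_left _ _).trans ht)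
  have h3 : t₃ ≤ t := (le_max_left _ _).trans ((le_max_right _ _).trans ht)
  have h4 : z₀ ^ 20 ≤ t := (le_max_right _ _).trans ((le_max_right _ _).trans ht)
  have hz : z₀ ≤ z := by
    by_contra hcon
    have h7 : (z + 1) ^ 20 ≤ z₀ ^ 20 := Nat.pow_le_pow_left (by omega) 20
    exact absurd (hr2.trans_le h7) (not_lt.2 h4)
  have hzz1 : z₁ ≤ z := by rw [hz₀] at hz; exact (le_max_left _ _).trans hz
  have hzz2 : 1 ≤ z := by rw [hz₀] at hz; exact (le_max_right _ _).trans hz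
  have hX0 : (0 : ℝ) ≤ X := Nat.cast_nonneg X
  have b1 := ht₁ t h1 z hr1 hr2 x X hX a r har
  have b2 := ht₂ t h2 a r (hz₁ z hzz1 t hr1 a r har) f hf
  have b3 := TK_abs (ht₃ t h3 z hr1) a r (Bz_GK hzz2 har) (fun A p => f (fun i => (A i : ℝ) / √ (t : ℝ)) p)
    (fun A p => hf.1 _ _) x X hX
  refine fin_arith hX0 ?_ b3 b2
  rw [← sum_sub_distrib]
  refine (abs_sum_le_sum_abs _ _).trans ?_
  have b4 : ∑ v ∈ range X, |f (fun i => (AA a r t (x + (v : ℕ)) i : ℝ) / √ (t : ℝ)) (Eqp a r t (x + (v : ℕ))) -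
      f (fun i => (AA a r t (x + (v : ℕ)) i : ℝ) / √ (t : ℝ)) (Mg a r t (x + (v : ℕ)))| ≤
      ∑ v ∈ range X, 2 * ∑ i, ∑ j, id1 (T^[t] (Lf a r i (x + (v : ℕ))) = T^[t] (Lf a r j (x + (v : ℕ))) ∧
        ¬ Mg a r t (x + (v : ℕ)) i j) := sum_le_sum fun v _ => pat_diff hf a r t _ _
  refine b4.trans ?_
  rw [← mul_sum, sum_comm]
  have b5 : ∀ i ∈ (univ : Finset (Fin k)), ∑ v ∈ range X, ∑ j, id1 (T^[t] (Lf a r i (x + (v : ℕ))) = T^[t] (Lf a r j (x + (v : ℕ))) ∧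
        ¬ Mg a r t (x + (v : ℕ)) i j) ≤ k * (ε / K * X) := by
    intro i _
    rw [sum_comm]
    refine (sum_le_sum fun j _ => b1 i j).trans (le_of_eq ?_)
    rw [sum_const, card_univ, Fintype.card_fin, nsmul_eq_mul]
  have b6 := sum_le_sum b5
  rw [sum_const, card_univ, Fintype.card_fin, nsmul_eq_mul] at b6
  refine (mul_le_mul_of_nonneg_left b6 zero_le_two).trans ?_
  have e1 : 2 * ((k : ℝ) * (k * (ε / K * X))) = (2 * (k : ℝ) ^ 2 / K) * (ε * X) := by ring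
  rw [e1]
  have e2 : 2 * (k : ℝ) ^ 2 / K ≤ 1 / 4 := by
    rw [div_le_iff₀ hK0, hK]; linarith
  have e3 : 0 ≤ ε * X := mul_nonneg hε.le hX0
  calc 2 * (k : ℝ) ^ 2 / K * (ε * X) ≤ 1 / 4 * (ε * X) := mul_le_mul_of_nonneg_right e2 e3
    _ = ε / 4 * X := by ring

/-- **The determinant on intervals.** -/
theorem det_int (k : ℕ) {κ ε : ℝ} (hκ : th0 < κ) (hε : 0 < ε) : ∃ t₀ : ℕ, ∀ t : ℕ, t₀ ≤ t → ∀ z : ℕ, z ^ 20 ≤ t →
    t < (z + 1) ^ 20 → ∀ (x : ℤ) (X : ℕ), (2 : ℝ) ^ (κ * t) ≤ X → ∀ (a : Fin k → ℕ) (r : Fin k → ℤ), Bz z a r → Monotone a →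
      ∀ y : Fin k → ℤ,
      |∑ v ∈ range X, ind y (AA a r t (x + (v : ℕ))) - X * cw (ind y) t (fun i => (a i : ℤ))| ≤ ε * X := by
  obtain ⟨c, hc, hBL⟩ := cdf_all k (show 0 < ε / 2 by positivity)
  obtain ⟨t₂, ht₂⟩ := eventually_atTop.1 hBL
  obtain ⟨t₃, ht₃⟩ := TTK_all k κ hκ (ε / 8) (by positivity) 5
  obtain ⟨z₁, hz₁⟩ := Bz_small (k := k) hc
  obtain ⟨z₀, hz₀⟩ : ∃ z₀ : ℕ, z₀ = max z₁ 1 := ⟨_, rfl⟩
  refine ⟨max t₂ (max t₃ (z₀ ^ 20)), ?_⟩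
  intro t ht z hr1 hr2 x X hX a r har ha y
  have h2 : t₂ ≤ t := (le_max_left _ _).trans ht
  have h3 : t₃ ≤ t := (le_max_left _ _).trans ((le_max_right _ _).trans ht)
  have h4 : z₀ ^ 20 ≤ t := (le_max_right _ _).trans ((le_max_right _ _).trans ht)
  have hz : z₀ ≤ z := by
    by_contra hcon
    have h7 : (z + 1) ^ 20 ≤ z₀ ^ 20 := Nat.pow_le_pow_left (by omega) 20
    exact absurd (hr2.trans_le h7) (not_lt.2 h4)
  have hzz1 : z₁ ≤ z := by rw [hz₀] at hz; exact (le_max_left _ _).trans hz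
  have hzz2 : 1 ≤ z := by rw [hz₀] at hz; exact (le_max_right _ _).trans hz
  have hX0 : (0 : ℝ) ≤ X := Nat.cast_nonneg X
  have b2 := ht₂ t h2 a r ha (hz₁ z hzz1 t hr1 a r har) y
  have b3 := TK_abs (ht₃ t h3 z hr1) a r (Bz_GK hzz2 har) (fun A _ => ind y A)
    (fun A p => by unfold ind; split_ifs <;> norm_num) x X hX
  refine fin_arith (S₂ := ∑ v ∈ range X, ind y (AA a r t (x + (v : ℕ)))) hX0 ?_ b3 b2
  rw [sub_self, abs_zero]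
  exact mul_nonneg (div_nonneg hε.le (by norm_num)) hX0

end Pool.Agent.J4H26.KT
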