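import Mathlib
import Pool.Agent.J4H26.KT.H
import Pool.Agent.J4H39.K9

set_option autoImplicit false

/-! Phase 2, walks side: definitions and statements. -/

namespace Pool.Agent.J4H26.KT

open Finset Filter Topology
open Pool.Agent.J4H39 (T od ex Wd mn mnK exK HN tN th0 ob id1)
open Pool.Agent.J4H26.AF

/-- the expected value after `s` steps of `k` independent walks -/
noncomputable def iw {k : ℕ} (f : (Fin k → ℤ) → ℝ) : ℕ → (Fin k → ℤ) → ℝ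
  | 0, z => f z
  | s + 1, z => (∑ p : Fin k → Fin 2, iw f s (fun i => z i + (p i : ℕ))) / 2 ^ k

/-- (W0) the numbers of odd terms of tuples of words are independent walks -/
def S_EXK : Prop := ∀ (K s : ℕ) (F : (Fin K → ℤ) → ℝ), exK s K (fun y => F (fun i => (od s (y i) : ℤ))) = iw F s (fun _ => 0)

/-- (W1) continuity in the switching time -/
def S_CONT : Prop := ∀ (K : ℕ) (δ ε : ℝ), 0 < δ → 0 < ε → ∃ η : ℝ, 0 < η ∧ ∀ᶠ t : ℕ in atTop, ∀ s s' k k' : ℕ, s + k = t →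
  s' + k' = t → δ * t ≤ s → δ * t ≤ s' → |(s : ℝ) - s'| ≤ η * t → ∀ G : (Fin K → ℤ) → ℝ, (∀ u, |G u| ≤ 1) →
    |iw (cw G k) s (fun _ => 0) - iw (cw G k') s' (fun _ => 0)| ≤ ε

/-- (W2) from the forms to the coalescing walks -/
def S_WD : Prop := ∀ (K : ℕ) (δ ε : ℝ), 0 < δ → 0 < ε → ∀ᶠ t : ℕ in atTop, ∀ s k : ℕ, s + k = t → δ * t ≤ k →
  ∀ f : (Fin K → ℝ) → (Fin K → Fin K → Prop) → ℝ, Adm f →
    |exK s K (fun y => Wd k (fun A p => f (fun i => (A i : ℝ) / √ (t : ℝ)) p) (fun i => od s (y i))) -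
      iw (cw (fW f t) k) s (fun _ => 0)| ≤ ε

/-- (W4) in windows, merging with unequal exponents is rare; the points are `n` and `n + h`, `1 ≤ h ≤ H` -/
def S_UNEQ : Prop := ∀ (θ τ : ℝ), 0 < θ → θ < 1 → θ < τ * th0 → τ * th0 < 1 → ∀ ε : ℝ, 0 < ε → ∀ᶠ N : ℕ in atTop, ∀ x : ℤ,
  mn x N (fun n => mn (n + 1) (HN θ N) (fun u => id1 (T^[tN τ N] n = T^[tN τ N] u ∧
    ¬ ((od (tN τ N) n : ℤ) = od (tN τ N) u)))) ≤ ε

end Pool.Agent.J4H26.KT
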