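import Mathlib
import Pool.Agent.J4H26.KT.W0

set_option autoImplicit false

/-! Phase 2, walks side: from the forms to walks. -/

namespace Pool.Agent.J4H26.KT

open Finset Filter Topology
open Pool.Agent.J4H39 (T od ex Wd mn mnK exK HN tN th0 ob id1 Per ex_congr ex_zero ex_succ ex_affine pow3_odd)
open Pool.Agent.J4H26.AF

variable {k : ℕ}

theorem iw_zero (f : (Fin k → ℤ) → ℝ) (z : Fin k → ℤ) : iw f 0 z = f z := rfl

theorem iw_succ (f : (Fin k → ℤ) → ℝ) (s : ℕ) (z : Fin k → ℤ) :
    iw f (s + 1) z = (∑ p : Fin k → Fin 2, iw f s (fun i => z i + (p i : ℕ))) / 2 ^ k := rfl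

theorem iw_const (c : ℝ) (s : ℕ) : ∀ z : Fin k → ℤ, iw (fun _ => c) s z = c := by
  induction s with
  | zero => intro z; rfl
  | succ s ih =>
    intro z
    rw [iw_succ, sum_congr rfl (fun p _ => ih _), sum_const, nsmul_eq_mul, card_univ, Fintype.card_fun, Fintype.card_fin, Fintype.card_fin]
    push_cast
    field_simp

theorem iw_add (f g : (Fin k → ℤ) → ℝ) (s : ℕ) : ∀ z, iw (fun u => f u + g u) s z = iw f s z + iw g s z := by
  induction s with
  | zero => intro z; rfl
  | succ s ih =>
    intro z
    rw [iw_succ, iw_succ, iw_succ, sum_congr rfl (fun p _ => ih _), sum_add_distrib, add_div]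

theorem iw_smul (c : ℝ) (f : (Fin k → ℤ) → ℝ) (s : ℕ) : ∀ z, iw (fun u => c * f u) s z = c * iw f s z := by
  induction s with
  | zero => intro z; rfl
  | succ s ih =>
    intro z
    rw [iw_succ, iw_succ, sum_congr rfl (fun p _ => ih _), ← mul_sum, mul_div_assoc]

theorem iw_mono_on {f g : (Fin k → ℤ) → ℝ} (h : ∀ z, (∀ i, 0 ≤ z i) → f z ≤ g z) (s : ℕ) :
    ∀ z, (∀ i, 0 ≤ z i) → iw f s z ≤ iw g s z := by
  induction s with
  | zero => intro z hz; exact h z hz
  | succ s ih =>
    intro z hz
    rw [iw_succ, iw_succ]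
    apply div_le_div_of_nonneg_right _ (by positivity)
    apply sum_le_sum
    intro p _
    apply ih
    intro i
    have := hz i
    positivity

theorem iw_mono {f g : (Fin k → ℤ) → ℝ} (h : ∀ z, f z ≤ g z) (s : ℕ) : ∀ z, iw f s z ≤ iw g s z := by
  induction s with
  | zero => intro z; exact h z
  | succ s ih =>
    intro z
    rw [iw_succ, iw_succ]
    apply div_le_div_of_nonneg_right _ (by positivity)
    exact sum_le_sum fun p _ => ih _

theorem isE_iw (s : ℕ) (z : Fin k → ℤ) : IsE (fun f => iw f s z) :=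
  ⟨fun f g => iw_add f g s z, fun c f => iw_smul c f s z, fun _ _ h => iw_mono h s z, iw_const 1 s z⟩

theorem sw_add (f g : ℤ → ℝ) (s : ℕ) : ∀ d, sw (fun x => f x + g x) s d = sw f s d + sw g s d := by
  induction s with
  | zero => intro d; rfl
  | succ s ih => intro d; simp only [sw]; rw [ih, ih]; ring

theorem sw_smul (c : ℝ) (f : ℤ → ℝ) (s : ℕ) : ∀ d, sw (fun x => c * f x) s d = c * sw f s d := by
  induction s with
  | zero => intro d; rfl
  | succ s ih => intro d; simp only [sw]; rw [ih, ih]; ring

theorem sw_sum {ι : Type*} (S : Finset ι) (f : ι → ℤ → ℝ) (s : ℕ) (d : ℤ) :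
    sw (fun u => ∑ i ∈ S, f i u) s d = ∑ i ∈ S, sw (f i) s d := by
  classical
  induction S using Finset.induction_on with
  | empty =>
    have : ∀ s d, sw (fun _ => (0 : ℝ)) s d = 0 := by
      intro s
      induction s with
      | zero => intro d; rfl
      | succ s ih => intro d; simp only [sw]; rw [ih, ih]; ring
    simp only [sum_empty]; exact this s d
  | insert a S ha ih => rw [sum_insert ha, ← ih, ← sw_add]; congr 1; funext u; rw [sum_insert ha]

/-- splitting off the first walk -/
theorem iw_cons (F : (Fin (k + 1) → ℤ) → ℝ) (s : ℕ) : ∀ (d : ℤ) (z : Fin k → ℤ),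
    iw F s (Fin.cons d z : Fin (k + 1) → ℤ) = sw (fun d' => iw (fun v => F (Fin.cons d' v : Fin (k + 1) → ℤ)) s z) s d := by
  induction s with
  | zero => intro d z; rfl
  | succ s ih =>
    intro d z
    rw [iw_succ]
    have e1 : ∑ p : Fin (k + 1) → Fin 2, iw F s (fun i => (Fin.cons d z : Fin (k + 1) → ℤ) i + (p i : ℕ)) =
        ∑ q : Fin 2, ∑ p : Fin k → Fin 2, iw F s (Fin.cons (d + (q : ℕ)) (fun i => z i + (p i : ℕ)) : Fin (k + 1) → ℤ) := by
      rw [← (Fin.consEquiv (fun _ : Fin (k + 1) => Fin 2)).sum_comp, Fintype.sum_prod_type]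
      apply sum_congr rfl
      intro q _
      apply sum_congr rfl
      intro p _
      congr 1
      funext i
      refine Fin.cases ?_ (fun j => ?_) i
      · simp [Fin.consEquiv]
      · simp [Fin.consEquiv]
    rw [e1]
    simp only [ih]
    have e2 : (fun d' => iw (fun v => F (Fin.cons d' v : Fin (k + 1) → ℤ)) (s + 1) z) =
        fun d' => (1 / 2 ^ k) * ∑ p : Fin k → Fin 2, iw (fun v => F (Fin.cons d' v : Fin (k + 1) → ℤ)) s (fun i => z i + (p i : ℕ)) := by
      funext d'
      rw [iw_succ]; ring
    simp only [sw]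
    rw [e2, sw_smul, sw_smul, sw_sum, sw_sum, Fin.sum_univ_two]
    simp only [Fin.val_zero, Fin.val_one, Nat.cast_zero, add_zero, Nat.cast_one]
    rw [pow_succ]
    field_simp

theorem ex_sw (s : ℕ) (g : ℤ → ℝ) : ex s (fun y => g (od s y : ℤ)) = sw g s 0 := by
  have h := ex_single (k := 1) (fun _ => 0) (fun _ => 0) 0 s g
  have e : ∀ m, AA (fun _ : Fin 1 => 0) (fun _ => 0) s m 0 = (od s m : ℤ) := by
    intro m
    unfold AA Lf
    simp
  simp only [e] at h
  exact h

/-- (W0) -/
theorem t_EXK : S_EXK := by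
  intro K s
  induction K with
  | zero =>
    intro F
    unfold exK
    have h : ∀ (s : ℕ) (F : (Fin 0 → ℤ) → ℝ) (z : Fin 0 → ℤ), iw F s z = F z := by
      intro s F
      induction s with
      | zero => intro z; rfl
      | succ s ih =>
        intro z
        rw [iw_succ]
        simp only [ih, Finset.univ_unique, sum_singleton, pow_zero, div_one]
        congr 1
        funext i
        exact i.elim0
    rw [h]
    exact congrArg F (funext fun i => i.elim0)
  | succ K ih =>
    intro F
    unfold exK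
    have e1 : (fun y => exK s K (fun v => (fun y : Fin (K + 1) → ℤ => F (fun i => (od s (y i) : ℤ))) (Fin.cons y v))) =
        fun y => (fun d => iw (fun v => F (Fin.cons d v : Fin (K + 1) → ℤ)) s (fun _ => 0)) (od s y : ℤ) := by
      funext y
      simp only
      rw [← ih]
      congr 1
      funext v
      congr 1
      funext i
      refine Fin.cases ?_ (fun j => ?_) i
      · simp
      · simp
    rw [e1, ex_sw s (fun d => iw (fun v => F (Fin.cons d v : Fin (K + 1) → ℤ)) s (fun _ => 0)), ← iw_cons]
    congr 1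
    funext i
    refine Fin.cases ?_ (fun j => ?_) i
    · simp
    · simp

theorem fl_fl (i : Fin k) (p : Fin k → Fin 2) : Function.update (Function.update p i (1 - p i)) i
    (1 - (Function.update p i (1 - p i)) i) = p := by
  funext j
  by_cases hj : j = i
  · subst hj
    simp only [Function.update_self]
    rcases (show p j = 0 ∨ p j = 1 by fin_omega) with h | h <;> rw [h] <;> rfl
  · simp [hj]

/-- flipping one coordinate -/
def fl (i : Fin k) : (Fin k → Fin 2) ≃ (Fin k → Fin 2) :=
  ⟨fun p => Function.update p i (1 - p i), fun p => Function.update p i (1 - p i), fl_fl i, fl_fl i⟩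

theorem fl_apply (i : Fin k) (p : Fin k → Fin 2) : fl i p i = 1 - p i := by
  unfold fl
  simp

theorem iw_single (g : ℤ → ℝ) (s : ℕ) : ∀ (z : Fin k → ℤ) (i : Fin k), iw (fun u => g (u i)) s z = sw g s (z i) := by
  induction s with
  | zero => intro z i; rfl
  | succ s ih =>
    intro z i
    rw [iw_succ, sum_congr rfl (fun p _ => ih _ i)]
    have h1 : ∑ p : Fin k → Fin 2, sw g s (z i + (p i : ℕ)) = ∑ p : Fin k → Fin 2, sw g s (z i + ((1 - p i : Fin 2) : ℕ)) := by
      rw [← (fl i).sum_comp]
      apply sum_congr rfl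
      intro p _
      rw [fl_apply]
    have h2 : ∑ p : Fin k → Fin 2, sw g s (z i + (p i : ℕ)) + ∑ p : Fin k → Fin 2, sw g s (z i + ((1 - p i : Fin 2) : ℕ)) =
        2 ^ k * (sw g s (z i) + sw g s (z i + 1)) := by
      rw [← sum_add_distrib]
      have h3 : ∀ p ∈ (univ : Finset (Fin k → Fin 2)), sw g s (z i + (p i : ℕ)) + sw g s (z i + ((1 - p i : Fin 2) : ℕ)) =
          sw g s (z i) + sw g s (z i + 1) := by
        intro p _
        rcases (show p i = 0 ∨ p i = 1 by fin_omega) with h | h
        · rw [h]; simp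
        · rw [h]; simp [add_comm]
      rw [sum_congr rfl h3, sum_const, nsmul_eq_mul, card_univ, Fintype.card_fun, Fintype.card_fin, Fintype.card_fin]
      push_cast
      ring
    simp only [sw]
    rw [← h1] at h2
    rw [div_eq_div_iff (by positivity) (by norm_num)]
    linarith

end Pool.Agent.J4H26.KT
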