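import Mathlib
import Pool.Agent.J4H26.KT.W2
import Pool.Agent.J4H39.K10

set_option autoImplicit false

/-! Phase 2, walks side: from the forms to coalescing walks. -/

namespace Pool.Agent.J4H26.KT

open Finset Filter Topology
open Pool.Agent.J4H39 (T od ex Wd Wd_eq mn mnK exK HN tN th0 ob id1 Per ex_congr ex_zero ex_succ ex_affine pow3_odd stK lb Gf)
open Pool.Agent.J4H26.AF

variable {k : ℕ}

theorem cw_shift (f : (Fin k → ℤ) → ℝ) (c : ℤ) (s : ℕ) : ∀ z : Fin k → ℤ,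
    cw f s (fun i => c + z i) = cw (fun u => f (fun i => c + u i)) s z := by
  induction s with
  | zero => intro z; rfl
  | succ s ih =>
    intro z
    rw [cw_succ, cw_succ]
    have e : moves (fun i => c + z i) = moves z := by
      unfold moves
      apply filter_congr
      intro p _
      simp only [add_right_inj]
    rw [e]
    congr 1
    apply sum_congr rfl
    intro p _
    rw [← ih]
    congr 1
    funext i
    ring

theorem Wd_st (g : (Fin k → ℤ) → (Fin k → Fin k → Prop) → ℝ) (q o₀ : ℕ) (D : Fin k → ℕ) :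
    Wd q g (fun i => o₀ + D i) =
      ex q (fun z => g (fun i => (o₀ : ℤ) + AA D (fun _ => 0) q z i) (Mg D (fun _ => 0) q z)) := by
  rw [Wd_eq]
  apply ex_congr
  intro z
  exact Gf_st (fun A p => g (fun i => (o₀ : ℤ) + A i) p) D (fun _ => 0) q z

/-- from the forms to the walks, for exponents at small distances -/
theorem Wd_near (k : ℕ) {ε : ℝ} (hε : 0 < ε) : ∃ c : ℝ, 0 < c ∧ ∀ᶠ q : ℕ in atTop, ∀ t : ℕ, q ≤ t → ∀ (o₀ : ℕ) (D : Fin k → ℕ),
    (∀ i, (D i : ℝ) ≤ c * q) → ∀ f : (Fin k → ℝ) → (Fin k → Fin k → Prop) → ℝ, Adm f →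
      |Wd q (fun A p => f (fun i => (A i : ℝ) / √ (t : ℝ)) p) (fun i => o₀ + D i) -
        cw (fW f t) q (fun i => (o₀ : ℤ) + D i)| ≤ ε := by
  obtain ⟨c, hc, hBL⟩ := BL_all k hε
  refine ⟨c, hc, ?_⟩
  filter_upwards [hBL, eventually_ge_atTop 1] with q b hq1
  intro t hqt o₀ D hD f hf
  have hq0 : (0 : ℝ) < √ (q : ℝ) := Real.sqrt_pos.2 (by exact_mod_cast hq1)
  have hqt' : √ (q : ℝ) ≤ √ (t : ℝ) := Real.sqrt_le_sqrt (by exact_mod_cast hqt)
  have ht0 : (0 : ℝ) < √ (t : ℝ) := lt_of_lt_of_le hq0 hqt'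
  have hs : Small D (fun _ => 0) c q := by
    intro i
    refine ⟨hD i, ?_⟩
    simp only [Int.cast_zero, abs_zero]
    positivity
  have hf' : Adm (fun (u : Fin k → ℝ) (p : Fin k → Fin k → Prop) => f (fun i => (o₀ + √ (q : ℝ) * u i) / √ (t : ℝ)) p) := by
    refine ⟨fun u p => hf.1 _ _, fun u v p => (hf.2 _ _ _).trans ?_⟩
    rw [pi_norm_le_iff_of_nonneg (norm_nonneg _)]
    intro i
    have h1 : (o₀ + √ (q : ℝ) * u i) / √ (t : ℝ) - (o₀ + √ (q : ℝ) * v i) / √ (t : ℝ) = (√ (q : ℝ) / √ (t : ℝ)) * (u i - v i) := by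
      field_simp; ring
    simp only [Pi.sub_apply]
    rw [h1, norm_mul]
    have h2 : ‖√ (q : ℝ) / √ (t : ℝ)‖ ≤ 1 := by
      rw [Real.norm_of_nonneg (by positivity), div_le_one ht0]
      exact hqt'
    have h3 : ‖u i - v i‖ ≤ ‖u - v‖ := norm_le_pi_norm (u - v) i
    calc ‖√ (q : ℝ) / √ (t : ℝ)‖ * ‖u i - v i‖ ≤ 1 * ‖u i - v i‖ := mul_le_mul_of_nonneg_right h2 (norm_nonneg _)
      _ ≤ ‖u - v‖ := by rw [one_mul]; exact h3
  have key := b D (fun _ => 0) hs _ hf'
  have e1 : ∀ x : ℝ, √ (q : ℝ) * (x / √ (q : ℝ)) = x := by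
    intro x; field_simp
  simp only [e1] at key
  have e2 : (fW (fun (u : Fin k → ℝ) (p : Fin k → Fin k → Prop) => f (fun i => (o₀ + √ (q : ℝ) * u i) / √ (t : ℝ)) p) (q : ℝ)) =
      fun u : Fin k → ℤ => fW f t (fun i => (o₀ : ℤ) + u i) := by
    funext u
    unfold fW
    simp only [e1]
    congr 1
    · funext i
      push_cast
      ring
    · funext i j
      rw [add_right_inj]
  rw [e2, ← cw_shift (fW f t) (o₀ : ℤ) q (fun i => (D i : ℤ))] at key
  rw [Wd_st]
  refine le_trans (le_of_eq ?_) key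
  congr 3
  funext m
  congr 1
  funext i
  push_cast
  ring

theorem exists_base (o : Fin k → ℕ) {B : ℝ} (hB : 0 ≤ B) (h : ∀ i j, |(o i : ℝ) - o j| ≤ B) :
    ∃ (o₀ : ℕ) (D : Fin k → ℕ), (∀ i, o i = o₀ + D i) ∧ ∀ i, (D i : ℝ) ≤ B := by
  rcases Nat.eq_zero_or_pos k with hk | hk
  · subst hk
    exact ⟨0, fun i => i.elim0, fun i => i.elim0, fun i => i.elim0⟩
  · obtain ⟨j, _, hj⟩ := exists_min_image (univ : Finset (Fin k)) o ⟨⟨0, hk⟩, mem_univ _⟩
    refine ⟨o j, fun i => o i - o j, fun i => ?_, fun i => ?_⟩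
    · have := hj i (mem_univ i)
      show o i = o j + (o i - o j)
      omega
    · have h1 := hj i (mem_univ i)
      rw [Nat.cast_sub h1]
      exact (le_abs_self _).trans (h i j)

theorem Wd_abs {q : ℕ} {g : (Fin k → ℤ) → (Fin k → Fin k → Prop) → ℝ} (hg : ∀ A p, |g A p| ≤ 1) (o : Fin k → ℕ) :
    |Wd q g o| ≤ 1 := by
  unfold Wd
  have h := (isE_ex q).abs_le (f := fun m => ob q g (fun i => (o i : ℤ)) (fun i => 3 ^ o i * m)) (g := fun _ => 1)
    (fun m => by unfold ob; exact hg _ _)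
  rw [(isE_ex q).const] at h
  exact h

/-- (W2) -/
theorem t_WD : S_WD := by
  intro K δ ε hδ hε
  obtain ⟨c, hc, hnear⟩ := Wd_near K (half_pos hε)
  obtain ⟨q₀, hq₀⟩ := eventually_atTop.1 hnear
  have hE : Tendsto (fun t : ℕ => δ * (t : ℝ)) atTop atTop := tendsto_natCast_atTop_atTop.const_mul_atTop hδ
  filter_upwards [hE.eventually_ge_atTop (q₀ : ℝ), hE.eventually_ge_atTop (max 1 (4 * K / (c ^ 2 * δ * ε))), eventually_ge_atTop 1]
    with t h1 h2 ht1
  intro s q hsq hq f hf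
  have hq1 : (1 : ℝ) ≤ q := (le_max_left _ _).trans (h2.trans hq)
  have hq0 : (0 : ℝ) < q := by linarith
  have hqq : q₀ ≤ q := by exact_mod_cast h1.trans hq
  have hqt : q ≤ t := by omega
  have b := hq₀ q hqq t hqt
  have h3 : 4 * K / (c ^ 2 * δ * ε) ≤ (q : ℝ) := (le_max_right _ _).trans (h2.trans hq)
  obtain ⟨F, hF⟩ : ∃ F : (Fin K → ℤ) → ℝ, F = fun u => Wd q (fun A p => f (fun i => (A i : ℝ) / √ (t : ℝ)) p) (fun i => (u i).toNat) := ⟨_, rfl⟩
  have e1 : exK s K (fun y => Wd q (fun A p => f (fun i => (A i : ℝ) / √ (t : ℝ)) p) (fun i => od s (y i))) = iw F s (fun _ => 0) := by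
    rw [← t_EXK K s F, hF]
    simp only [Int.toNat_natCast]
  rw [e1, ← (isE_iw s (fun _ => 0)).sub]
  -- pointwise
  have hpt : ∀ u : Fin K → ℤ, (∀ i, 0 ≤ u i) → |F u - cw (fW f t) q u| ≤
      ε / 2 + 2 * ∑ i, (2 * (u i : ℝ) - s) ^ 2 / (c * q) ^ 2 := by
    intro u hu
    have hnn : 0 ≤ ∑ i, (2 * (u i : ℝ) - s) ^ 2 / (c * q) ^ 2 := sum_nonneg fun i _ => by positivity
    by_cases hclose : ∀ i j, |((u i).toNat : ℝ) - (u j).toNat| ≤ c * q
    · obtain ⟨o₀, D, hD1, hD2⟩ := exists_base (fun i => (u i).toNat) (by positivity) hclose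
      have h4 := b o₀ D hD2 f hf
      have e2 : (fun i => o₀ + D i) = fun i => (u i).toNat := by funext i; exact (hD1 i).symm
      have e3 : (fun i => (o₀ : ℤ) + (D i : ℤ)) = u := by
        funext i
        have := hD1 i
        have h5 := Int.toNat_of_nonneg (hu i)
        omega
      rw [e2, e3] at h4
      rw [hF]
      simp only
      linarith
    · push Not at hclose
      obtain ⟨i, j, hij⟩ := hclose
      have hi : ((u i).toNat : ℝ) = (u i : ℝ) := by
        have := Int.toNat_of_nonneg (hu i)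
        exact_mod_cast congrArg (fun z : ℤ => (z : ℝ)) this
      have hj : ((u j).toNat : ℝ) = (u j : ℝ) := by
        have := Int.toNat_of_nonneg (hu j)
        exact_mod_cast congrArg (fun z : ℤ => (z : ℝ)) this
      rw [hi, hj] at hij
      have hcq : 0 < c * q := by positivity
      have hbig : ∃ l, c * q ≤ |2 * (u l : ℝ) - s| := by
        by_contra hcon
        push Not at hcon
        have a1 := abs_lt.1 (hcon i)
        have a2 := abs_lt.1 (hcon j)
        have : |(u i : ℝ) - u j| < c * q := by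
          rw [abs_lt]
          constructor <;> linarith
        linarith
      obtain ⟨l, hl⟩ := hbig
      have h6 : 1 ≤ (2 * (u l : ℝ) - s) ^ 2 / (c * q) ^ 2 := by
        rw [le_div_iff₀ (by positivity), one_mul, ← sq_abs (2 * (u l : ℝ) - s)]
        exact pow_le_pow_left₀ hcq.le hl 2
      have h7 : (2 * (u l : ℝ) - s) ^ 2 / (c * q) ^ 2 ≤ ∑ i, (2 * (u i : ℝ) - s) ^ 2 / (c * q) ^ 2 :=
        single_le_sum (f := fun i => (2 * (u i : ℝ) - s) ^ 2 / (c * q) ^ 2) (fun i _ => by positivity) (mem_univ l)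
      have h8 : |F u| ≤ 1 := by rw [hF]; exact Wd_abs (fun A p => hf.1 _ _) _
      have h9 : |cw (fW f t) q u| ≤ 1 := by
        have := (isE_cw q u).abs_le (f := fW f t) (g := fun _ => 1) (fun v => hf.1 _ _)
        rw [(isE_cw q u).const] at this
        exact this
      have h10 := abs_sub (F u) (cw (fW f t) q u)
      linarith
  have hiw : |iw (fun u => F u - cw (fW f t) q u) s (fun _ => 0)| ≤
      iw (fun u : Fin K → ℤ => ε / 2 + 2 * ∑ i, (2 * (u i : ℝ) - s) ^ 2 / (c * q) ^ 2) s (fun _ => 0) := by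
    rw [abs_le]
    constructor
    · have := iw_mono_on (f := fun u : Fin K → ℤ => -(ε / 2 + 2 * ∑ i, (2 * (u i : ℝ) - s) ^ 2 / (c * q) ^ 2))
        (g := fun u => F u - cw (fW f t) q u) (fun u hu => (abs_le.1 (hpt u hu)).1) s (fun _ : Fin K => (0 : ℤ)) (fun _ => le_refl _)
      rw [(isE_iw s (fun _ => 0)).neg] at this
      exact this
    · exact iw_mono_on (fun u hu => (abs_le.1 (hpt u hu)).2) s (fun _ : Fin K => (0 : ℤ)) (fun _ => le_refl _)
  refine hiw.trans ?_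
  rw [iw_add, (isE_iw s (fun _ => 0)).const, iw_smul, (isE_iw s (fun _ => 0)).sum]
  have e4 : ∀ i : Fin K, iw (fun u => (2 * (u i : ℝ) - s) ^ 2 / (c * q) ^ 2) s (fun _ => 0) = s / (c * q) ^ 2 := by
    intro i
    have : (fun u : Fin K → ℤ => (2 * (u i : ℝ) - s) ^ 2 / (c * q) ^ 2) =
        fun u => (1 / (c * q) ^ 2) * (fun x : ℤ => (2 * (x : ℝ) - s) ^ 2) (u i) := by
      funext u
      simp only
      ring
    rw [this, iw_smul, iw_single (fun x : ℤ => (2 * (x : ℝ) - s) ^ 2) s _ i, sw_sq]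
    push_cast
    ring
  rw [sum_congr rfl (fun i _ => e4 i), sum_const, card_univ, Fintype.card_fin, nsmul_eq_mul]
  have hst : (s : ℝ) ≤ t := by exact_mod_cast (by omega : s ≤ t)
  have hst2 : (s : ℝ) ≤ q / δ := by
    rw [le_div_iff₀ hδ]
    nlinarith
  have e5 : 2 * ((K : ℝ) * (s / (c * q) ^ 2)) ≤ ε / 2 := by
    rw [div_le_iff₀ (by positivity)] at h3
    have h11 : (s : ℝ) / (c * q) ^ 2 ≤ 1 / (c ^ 2 * δ * q) := by
      rw [div_le_div_iff₀ (by positivity) (by positivity)]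
      have : (s : ℝ) * δ ≤ q := by rwa [le_div_iff₀ hδ] at hst2
      have h12 : (s : ℝ) * (c ^ 2 * δ * q) = (s * δ) * (c ^ 2 * q) := by ring
      rw [h12]
      calc (s * δ) * (c ^ 2 * (q : ℝ)) ≤ q * (c ^ 2 * q) := mul_le_mul_of_nonneg_right this (by positivity)
        _ = 1 * (c * q) ^ 2 := by ring
    have h13 : (K : ℝ) * (s / (c * q) ^ 2) ≤ K * (1 / (c ^ 2 * δ * q)) := mul_le_mul_of_nonneg_left h11 (by positivity)
    have h14 : (K : ℝ) * (1 / (c ^ 2 * δ * q)) ≤ ε / 4 := by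
      rw [mul_one_div, div_le_iff₀ (by positivity)]
      nlinarith
    linarith
  linarith

end Pool.Agent.J4H26.KT
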