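import Mathlib
import Pool.Agent.J4H26.KT.W0
import Pool.Agent.J4H39.K13

set_option autoImplicit false

/-! Phase 2: means over windows as sums; merging with unequal exponents is rare. -/

namespace Pool.Agent.J4H26.KT

open Finset Filter Topology
open Pool.Agent.J4H39 (T od ex Wd mn mnK exK HN tN th0 ob id1 id1_nonneg id1_le_one mn_nonneg)
open Pool.Agent.J4H26.AF

theorem mn_c {a : ℤ} {b : ℕ} (hb : 1 ≤ b) (c : ℝ) : mn a b (fun _ => c) = c := by
  have : (b : ℝ) ≠ 0 := by positivity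
  unfold mn
  rw [sum_const, card_range, nsmul_eq_mul]
  field_simp

theorem mn_add' (a : ℤ) (b : ℕ) (f g : ℤ → ℝ) : mn a b (fun z => f z + g z) = mn a b f + mn a b g := by
  unfold mn; rw [sum_add_distrib, add_div]

theorem mn_smul (a : ℤ) (b : ℕ) (c : ℝ) (f : ℤ → ℝ) : mn a b (fun z => c * f z) = c * mn a b f := by
  unfold mn; rw [← mul_sum, mul_div_assoc]

theorem mn_le {a : ℤ} {b : ℕ} {f g : ℤ → ℝ} (h : ∀ z, f z ≤ g z) : mn a b f ≤ mn a b g := by
  unfold mn
  exact div_le_div_of_nonneg_right (sum_le_sum fun _ _ => h _) (by positivity)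

theorem isE_mn (a : ℤ) {b : ℕ} (hb : 1 ≤ b) : IsE (mn a b) := ⟨mn_add' a b, mn_smul a b, fun _ _ h => mn_le h, mn_c hb 1⟩

theorem isE_mnK {b : ℕ} (hb : 1 ≤ b) : ∀ (K : ℕ) (a : ℤ), IsE (mnK K (fun _ => a) (fun _ => b)) := by
  intro K
  induction K with
  | zero => intro a; exact ⟨fun f g => rfl, fun c f => rfl, fun f g h => h _, rfl⟩
  | succ K ih =>
    intro a
    have hK := ih a
    have h1 := isE_mn a hb
    refine ⟨fun f g => ?_, fun c f => ?_, fun f g h => ?_, ?_⟩
    · show mn a b (fun z => mnK K (fun _ => a) (fun _ => b) (fun v => f (Fin.cons z v) + g (Fin.cons z v))) = _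
      have : (fun z : ℤ => mnK K (fun _ => a) (fun _ => b) (fun v => f (Fin.cons z v : Fin (K + 1) → ℤ) + g (Fin.cons z v : Fin (K + 1) → ℤ))) =
          fun z => mnK K (fun _ => a) (fun _ => b) (fun v => f (Fin.cons z v : Fin (K + 1) → ℤ)) +
            mnK K (fun _ => a) (fun _ => b) (fun v => g (Fin.cons z v : Fin (K + 1) → ℤ)) := by
        funext z
        exact hK.add _ _
      rw [this, h1.add]
      rfl
    · show mn a b (fun z => mnK K (fun _ => a) (fun _ => b) (fun v => c * f (Fin.cons z v))) = _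
      have : (fun z : ℤ => mnK K (fun _ => a) (fun _ => b) (fun v => c * f (Fin.cons z v : Fin (K + 1) → ℤ))) =
          fun z => c * mnK K (fun _ => a) (fun _ => b) (fun v => f (Fin.cons z v : Fin (K + 1) → ℤ)) := by
        funext z
        exact hK.smul _ _
      rw [this, h1.smul]
      rfl
    · show mn a b (fun z => mnK K (fun _ => a) (fun _ => b) (fun v => f (Fin.cons z v))) ≤
        mn a b (fun z => mnK K (fun _ => a) (fun _ => b) (fun v => g (Fin.cons z v)))
      exact h1.mono _ _ fun z => hK.mono _ _ fun v => h _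
    · show mn a b (fun z => mnK K (fun _ => a) (fun _ => b) (fun v => 1)) = _
      rw [hK.one, h1.one]

/-- means over cubes are sums -/
theorem mnK_sum (K : ℕ) (a : ℤ) (b : ℕ) : ∀ F : (Fin K → ℤ) → ℝ,
    mnK K (fun _ => a) (fun _ => b) F = (∑ h : Fin K → Fin b, F (fun i => a + (h i : ℕ))) / (b : ℝ) ^ K := by
  induction K with
  | zero =>
    intro F
    show F (fun i => i.elim0) = _
    rw [Finset.univ_unique, sum_singleton, pow_zero, div_one]
    exact congrArg F (funext fun i => i.elim0)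
  | succ K ih =>
    intro F
    show mn a b (fun z => mnK K (fun _ => a) (fun _ => b) (fun v => F (Fin.cons z v))) = _
    have e : (fun z : ℤ => mnK K (fun _ => a) (fun _ => b) (fun v => F (Fin.cons z v : Fin (K + 1) → ℤ))) =
        fun z => (∑ h : Fin K → Fin b, F (Fin.cons z (fun i => a + (h i : ℕ)) : Fin (K + 1) → ℤ)) / (b : ℝ) ^ K := by
      funext z
      exact ih _
    rw [e]
    unfold mn
    rw [← sum_div, div_div, ← pow_succ]
    congr 1
    rw [← (Fin.consEquiv (fun _ : Fin (K + 1) => Fin b)).sum_comp, Fintype.sum_prod_type, Finset.sum_range]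
    apply sum_congr rfl
    intro q _
    apply sum_congr rfl
    intro h _
    congr 1
    funext i
    refine Fin.cases ?_ (fun j => ?_) i
    · simp [Fin.consEquiv]
    · simp [Fin.consEquiv]

/-- first marginals -/
theorem marg1 {b : ℕ} (hb : 1 ≤ b) (a : ℤ) (φ : ℤ → ℝ) : ∀ (K : ℕ) (j : Fin K),
    mnK K (fun _ => a) (fun _ => b) (fun v => φ (v j)) = mn a b φ := by
  intro K
  induction K with
  | zero => intro j; exact j.elim0
  | succ K ih =>
    intro j
    show mn a b (fun z => mnK K (fun _ => a) (fun _ => b) (fun v => φ ((Fin.cons z v : Fin (K + 1) → ℤ) j))) = _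
    refine Fin.cases ?_ (fun l => ?_) j
    · simp only [Fin.cons_zero]
      congr 1
      funext z
      exact (isE_mnK hb K a).const _
    · simp only [Fin.cons_succ]
      rw [ih l, mn_c hb]

/-- second marginals -/
theorem marg2 {b : ℕ} (hb : 1 ≤ b) (a : ℤ) : ∀ (K : ℕ) (φ : ℤ → ℤ → ℝ) (i j : Fin K), i ≠ j →
    mnK K (fun _ => a) (fun _ => b) (fun v => φ (v i) (v j)) = mn a b (fun z => mn a b (fun w => φ z w)) := by
  intro K
  induction K with
  | zero => intro φ i; exact i.elim0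
  | succ K ih =>
    intro φ i j hij
    show mn a b (fun z => mnK K (fun _ => a) (fun _ => b)
      (fun v => φ ((Fin.cons z v : Fin (K + 1) → ℤ) i) ((Fin.cons z v : Fin (K + 1) → ℤ) j))) = _
    revert hij
    refine Fin.cases ?_ (fun l => ?_) i <;> refine Fin.cases ?_ (fun l' => ?_) j
    · intro h; exact absurd rfl h
    · intro _
      simp only [Fin.cons_zero, Fin.cons_succ]
      congr 1
      funext z
      exact marg1 hb a (fun w => φ z w) K l'
    · intro _
      simp only [Fin.cons_zero, Fin.cons_succ]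
      have : (fun z => mnK K (fun _ => a) (fun _ => b) (fun v => φ (v l) z)) = fun z => mn a b (fun w => φ w z) := by
        funext z
        exact marg1 hb a (fun w => φ w z) K l
      rw [this]
      unfold mn
      rw [← sum_div, ← sum_div, sum_comm]
    · intro h
      simp only [Fin.cons_succ]
      rw [ih φ l l' (fun e => h (by rw [e])), mn_c hb]

theorem shift_sum {G : ℤ → ℝ} {B : ℝ} (h0 : ∀ y, 0 ≤ G y) (h1 : ∀ y, G y ≤ B) (x : ℤ) (N s : ℕ) :
    ∑ v ∈ range N, G (x + (v : ℕ) + (s : ℕ)) ≤ ∑ v ∈ range N, G (x + (v : ℕ)) + s * B := by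
  have e1 : ∑ v ∈ range N, G (x + (v : ℕ) + (s : ℕ)) = ∑ v ∈ range N, G (x + ((s + v : ℕ) : ℤ)) := by
    apply sum_congr rfl
    intro v _
    congr 1
    push_cast; ring
  have e2 : ∑ v ∈ range (s + N), G (x + (v : ℕ)) = ∑ v ∈ range s, G (x + (v : ℕ)) + ∑ v ∈ range N, G (x + ((s + v : ℕ) : ℤ)) :=
    sum_range_add _ _ _
  have e3 : ∑ v ∈ range (N + s), G (x + (v : ℕ)) = ∑ v ∈ range N, G (x + (v : ℕ)) + ∑ v ∈ range s, G (x + ((N + v : ℕ) : ℤ)) :=
    sum_range_add _ _ _
  rw [Nat.add_comm] at e3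
  have e4 : ∑ v ∈ range s, G (x + ((N + v : ℕ) : ℤ)) ≤ s * B := by
    refine (sum_le_sum fun v _ => h1 _).trans (le_of_eq ?_)
    rw [sum_const, card_range, nsmul_eq_mul]
  have e5 : 0 ≤ ∑ v ∈ range s, G (x + (v : ℕ)) := sum_nonneg fun _ _ => h0 _
  rw [e1]
  linarith

/-- pairs of two points of the window -/
theorem pair_window {Q : ℤ → ℤ → ℝ} (h0 : ∀ u w, 0 ≤ Q u w) (h1 : ∀ u w, Q u w ≤ 1) (hs : ∀ u w, Q u w = Q w u)
    (hd : ∀ u, Q u u = 0) (x : ℤ) {N H : ℕ} (hN : 1 ≤ N) (hH : 1 ≤ H) :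
    mn x N (fun n => mn (n + 1) H (fun u => mn (n + 1) H (fun w => Q u w))) ≤
      2 * mn x N (fun n => mn (n + 1) H (fun u => Q n u)) + 2 * (H / N) := by
  have hN0 : (0 : ℝ) < N := by exact_mod_cast hN
  have hH0 : (0 : ℝ) < H := by exact_mod_cast hH
  obtain ⟨G, hG⟩ : ∃ G : ℤ → ℝ, G = fun y => ∑ r ∈ range H, Q y (y + 1 + (r : ℕ)) := ⟨_, rfl⟩
  have hG0 : ∀ y, 0 ≤ G y := by intro y; rw [hG]; exact sum_nonneg fun _ _ => h0 _ _
  have hG1 : ∀ y, G y ≤ H := by
    intro y; rw [hG]
    refine (sum_le_sum fun v _ => h1 _ _).trans (le_of_eq ?_)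
    rw [sum_const, card_range, nsmul_eq_mul, mul_one]
  have hloc : ∀ y : ℤ, ∑ p ∈ range H, ∑ q ∈ range H, Q (y + (p : ℕ)) (y + (q : ℕ)) ≤ 2 * ∑ p ∈ range H, G (y + (p : ℕ)) := by
    intro y
    have a1 : ∑ p ∈ range H, ∑ q ∈ range H, Q (y + (p : ℕ)) (y + (q : ℕ)) =
        ∑ p ∈ range H, ∑ q ∈ range H, (if p < q then Q (y + (p : ℕ)) (y + (q : ℕ)) else 0) +
        ∑ p ∈ range H, ∑ q ∈ range H, (if q < p then Q (y + (p : ℕ)) (y + (q : ℕ)) else 0) := by
      rw [← sum_add_distrib]
      apply sum_congr rfl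
      intro p _
      rw [← sum_add_distrib]
      apply sum_congr rfl
      intro q _
      rcases lt_trichotomy p q with h | h | h
      · rw [if_pos h, if_neg (by omega), add_zero]
      · subst h; rw [if_neg (lt_irrefl p), hd]; ring
      · rw [if_neg (by omega), if_pos h, zero_add]
    have a2 : ∑ p ∈ range H, ∑ q ∈ range H, (if q < p then Q (y + (p : ℕ)) (y + (q : ℕ)) else 0) =
        ∑ p ∈ range H, ∑ q ∈ range H, (if p < q then Q (y + (p : ℕ)) (y + (q : ℕ)) else 0) := by
      rw [sum_comm]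
      apply sum_congr rfl
      intro p _
      apply sum_congr rfl
      intro q _
      rw [hs]
    rw [a1, a2, ← two_mul]
    apply mul_le_mul_of_nonneg_left _ zero_le_two
    apply sum_le_sum
    intro p hp
    rw [hG]
    simp only
    rw [← sum_filter]
    have a3 : ∑ q ∈ (range H).filter (fun q => p < q), Q (y + (p : ℕ)) (y + (q : ℕ)) =
        ∑ r ∈ ((range H).filter (fun q => p < q)).image (fun q => q - (p + 1)), Q (y + (p : ℕ)) (y + (p : ℕ) + 1 + (r : ℕ)) := by
      rw [sum_image]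
      · apply sum_congr rfl
        intro q hq
        rw [mem_filter] at hq
        congr 1
        push_cast [show p + 1 ≤ q from hq.2]
        ring
      · intro q hq q' hq' hqq
        simp only [coe_filter, Set.mem_ofPred_eq] at hq hq'
        have hqq' : q - (p + 1) = q' - (p + 1) := hqq
        omega
    rw [a3]
    apply sum_le_sum_of_subset_of_nonneg
    · intro r hr
      rw [mem_image] at hr
      obtain ⟨q, hq, hqr⟩ := hr
      rw [mem_filter, mem_range] at hq
      rw [mem_range]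
      omega
    · intro r _ _
      exact h0 _ _
  have hS : ∑ v ∈ range N, ∑ p ∈ range H, ∑ q ∈ range H, Q (x + (v : ℕ) + 1 + (p : ℕ)) (x + (v : ℕ) + 1 + (q : ℕ)) ≤
      2 * (H * (∑ v ∈ range N, G (x + (v : ℕ)) + H * H)) := by
    calc ∑ v ∈ range N, ∑ p ∈ range H, ∑ q ∈ range H, Q (x + (v : ℕ) + 1 + (p : ℕ)) (x + (v : ℕ) + 1 + (q : ℕ)) ≤
        ∑ v ∈ range N, 2 * ∑ p ∈ range H, G (x + (v : ℕ) + 1 + (p : ℕ)) := sum_le_sum fun v _ => hloc _
      _ = 2 * ∑ p ∈ range H, ∑ v ∈ range N, G (x + (v : ℕ) + ((1 + p : ℕ) : ℤ)) := by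
          rw [← mul_sum, sum_comm]
          congr 1
          apply sum_congr rfl
          intro p _
          apply sum_congr rfl
          intro v _
          congr 1
          push_cast; ring
      _ ≤ 2 * ∑ p ∈ range H, (∑ v ∈ range N, G (x + (v : ℕ)) + H * H) := by
          apply mul_le_mul_of_nonneg_left _ zero_le_two
          apply sum_le_sum
          intro p hp
          rw [mem_range] at hp
          refine (shift_sum hG0 hG1 x N (1 + p)).trans ?_
          have : ((1 + p : ℕ) : ℝ) ≤ H := by exact_mod_cast (by omega : 1 + p ≤ H)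
          have := mul_le_mul_of_nonneg_right this hH0.le
          linarith
      _ = 2 * (H * (∑ v ∈ range N, G (x + (v : ℕ)) + H * H)) := by
          rw [sum_const, card_range, nsmul_eq_mul]
  have e1 : mn x N (fun n => mn (n + 1) H (fun u => mn (n + 1) H (fun w => Q u w))) =
      (∑ v ∈ range N, ∑ p ∈ range H, ∑ q ∈ range H, Q (x + (v : ℕ) + 1 + (p : ℕ)) (x + (v : ℕ) + 1 + (q : ℕ))) / (H * H * N) := by
    unfold mn
    simp only [← sum_div]
    rw [div_div, div_div]
    congr 1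
    ring
  have e2 : mn x N (fun n => mn (n + 1) H (fun u => Q n u)) = (∑ v ∈ range N, G (x + (v : ℕ))) / (H * N) := by
    unfold mn
    simp only [← sum_div]
    rw [div_div, hG]
  rw [e1, e2, div_le_iff₀ (by positivity)]
  refine hS.trans (le_of_eq ?_)
  field_simp

theorem HN_le {θ : ℝ} (hθ : θ < 1) {ε : ℝ} (hε : 0 < ε) : ∀ᶠ N : ℕ in atTop, (HN θ N : ℝ) / N ≤ ε := by
  have h1 : Tendsto (fun N : ℕ => (N : ℝ) ^ (-(1 - θ))) atTop (𝓝 0) :=
    (tendsto_rpow_neg_atTop (by linarith)).comp tendsto_natCast_atTop_atTop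
  filter_upwards [h1.eventually (ge_mem_nhds hε), eventually_ge_atTop 1] with N h2 h3
  have hN : (0 : ℝ) < N := by exact_mod_cast h3
  have h4 : (HN θ N : ℝ) ≤ (N : ℝ) ^ θ := Nat.floor_le (by positivity)
  calc (HN θ N : ℝ) / N ≤ (N : ℝ) ^ θ / N := div_le_div_of_nonneg_right h4 hN.le
    _ = (N : ℝ) ^ (-(1 - θ)) := by
        rw [show -(1 - θ) = θ - 1 by ring, Real.rpow_sub hN, Real.rpow_one]
    _ ≤ ε := h2

end Pool.Agent.J4H26.KT
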