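import Mathlib
import Pool.Agent.J4H26.KT.W3
import Pool.Agent.J4H26.KT.W4
import Pool.Agent.J4H39.K14

set_option autoImplicit false

/-! Phase 2: random points of a window, assembly. -/

namespace Pool.Agent.J4H26.KT

open Finset Filter Topology
open Pool.Agent.J4H39 (T od ex Wd mn mnK exK HN tN th0 th0_pos ob id1 id1_nonneg id1_le_one tN_tendsto WIN_all)
open Pool.Agent.J4H26.AF

/-- the pattern of the mergings of a tuple of points -/
def Tp {k : ℕ} (t : ℕ) (v : Fin k → ℤ) (i j : Fin k) : Prop := T^[t] (v i) = T^[t] (v j)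

/-- the observable of a tuple of points -/
noncomputable def obT {k : ℕ} (f : (Fin k → ℝ) → (Fin k → Fin k → Prop) → ℝ) (t : ℕ) (v : Fin k → ℤ) : ℝ :=
  f (fun i => (od t (v i) : ℝ) / √ (t : ℝ)) (Tp t v)

/-- merging with unequal exponents -/
noncomputable def Qf (t : ℕ) (u w : ℤ) : ℝ := id1 (T^[t] u = T^[t] w ∧ ¬ ((od t u : ℤ) = od t w))

theorem Qf_symm (t : ℕ) (u w : ℤ) : Qf t u w = Qf t w u := by
  unfold Qf
  congr 1
  apply propext
  constructor <;> rintro ⟨h1, h2⟩ <;> exact ⟨h1.symm, fun h => h2 h.symm⟩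

theorem Qf_self (t : ℕ) (u : ℤ) : Qf t u u = 0 := by
  unfold Qf id1
  rw [if_neg (fun h => h.2 rfl)]

theorem obT_ob {k : ℕ} {f : (Fin k → ℝ) → (Fin k → Fin k → Prop) → ℝ} (hf : Adm f) (t : ℕ) (v : Fin k → ℤ) :
    |obT f t v - ob t (fun A p => f (fun i => (A i : ℝ) / √ (t : ℝ)) p) (fun _ => 0) v| ≤ 2 * ∑ i, ∑ j, Qf t (v i) (v j) := by
  have hnn : 0 ≤ ∑ i, ∑ j, Qf t (v i) (v j) := sum_nonneg fun _ _ => sum_nonneg fun _ _ => id1_nonneg _
  have e0 : ob t (fun A p => f (fun i => (A i : ℝ) / √ (t : ℝ)) p) (fun _ => 0) v =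
      f (fun i => (od t (v i) : ℝ) / √ (t : ℝ)) (fun i j => (0 : ℤ) + od t (v i) = 0 + od t (v j) ∧ T^[t] (v i) = T^[t] (v j)) := by
    unfold ob
    congr 1
    funext i
    push_cast
    ring
  rw [e0]
  by_cases h : ∃ i j, T^[t] (v i) = T^[t] (v j) ∧ ¬ ((od t (v i) : ℤ) = od t (v j))
  · obtain ⟨i, j, hij⟩ := h
    have h1 : (1 : ℝ) ≤ ∑ i, ∑ j, Qf t (v i) (v j) := by
      calc (1 : ℝ) = Qf t (v i) (v j) := by unfold Qf id1; rw [if_pos hij]
        _ ≤ ∑ j, Qf t (v i) (v j) := single_le_sum (f := fun j => Qf t (v i) (v j)) (fun _ _ => id1_nonneg _) (mem_univ j)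
        _ ≤ _ := single_le_sum (f := fun i => ∑ j, Qf t (v i) (v j)) (fun _ _ => sum_nonneg fun _ _ => id1_nonneg _) (mem_univ i)
    unfold obT
    have h2 := abs_le.1 (hf.1 (fun i => (od t (v i) : ℝ) / √ (t : ℝ)) (Tp t v))
    have h3 := abs_le.1 (hf.1 (fun i => (od t (v i) : ℝ) / √ (t : ℝ))
      (fun i j => (0 : ℤ) + od t (v i) = 0 + od t (v j) ∧ T^[t] (v i) = T^[t] (v j)))
    rw [abs_le]
    constructor <;> linarith
  · push Not at h
    have e : (fun i j => (0 : ℤ) + od t (v i) = 0 + od t (v j) ∧ T^[t] (v i) = T^[t] (v j)) = Tp t v := by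
      funext i j
      apply propext
      unfold Tp
      simp only [zero_add]
      exact ⟨fun h1 => h1.2, fun h1 => ⟨h i j h1, h1⟩⟩
    rw [e]
    unfold obT
    rw [sub_self, abs_zero]
    linarith

/-- the mean over `n` and the tuples of the window -/
noncomputable def wm (K N H : ℕ) (x : ℤ) (F : (Fin (K + 1) → ℤ) → ℝ) : ℝ :=
  mn x N (fun n => mnK K (fun _ => n + 1) (fun _ => H) (fun u => F (Fin.cons n u)))

theorem isE_wm (K : ℕ) {N H : ℕ} (hN : 1 ≤ N) (hH : 1 ≤ H) (x : ℤ) : IsE (wm K N H x) := by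
  have h1 := isE_mn x hN
  have h2 := fun n : ℤ => isE_mnK hH K (n + 1)
  refine ⟨fun f g => ?_, fun c f => ?_, fun f g h => ?_, ?_⟩
  · unfold wm
    rw [← h1.add]
    congr 1
    funext n
    exact (h2 n).add _ _
  · unfold wm
    rw [← h1.smul]
    congr 1
    funext n
    exact (h2 n).smul _ _
  · exact h1.mono _ _ fun n => (h2 n).mono _ _ fun v => h _
  · unfold wm
    have e : (fun n : ℤ => mnK K (fun _ => n + 1) (fun _ => H) (fun _ => (1 : ℝ))) = fun _ => 1 := by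
      funext n
      exact (h2 n).one
    rw [e, h1.one]

/-- bad pairs in windows -/
theorem wm_pair (K : ℕ) {N H : ℕ} (hN : 1 ≤ N) (hH : 1 ≤ H) (x : ℤ) (t : ℕ) {P : ℝ}
    (hP : mn x N (fun n => mn (n + 1) H (fun u => Qf t n u)) ≤ P) (hP2 : (H : ℝ) / N ≤ P) (i j : Fin (K + 1)) :
    wm K N H x (fun v => Qf t (v i) (v j)) ≤ 4 * P := by
  have h0 : 0 ≤ (H : ℝ) / N := by positivity
  have hP0 : 0 ≤ P := h0.trans hP2
  have base : ∀ l : Fin K, mn x N (fun n => mnK K (fun _ => n + 1) (fun _ => H) (fun u => Qf t n (u l))) ≤ P := by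
    intro l
    refine le_trans (le_of_eq ?_) hP
    congr 1
    funext n
    exact marg1 hH (n + 1) (fun w => Qf t n w) K l
  by_cases hij : i = j
  · subst hij
    have : wm K N H x (fun v => Qf t (v i) (v i)) = 0 := by
      simp only [Qf_self]
      exact (isE_wm K hN hH x).const 0
    rw [this]; positivity
  revert hij
  unfold wm
  refine Fin.cases ?_ (fun l => ?_) i <;> refine Fin.cases ?_ (fun l' => ?_) j
  · intro h; exact absurd rfl h
  · intro _
    simp only [Fin.cons_zero, Fin.cons_succ]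
    have := base l'
    linarith
  · intro _
    simp only [Fin.cons_zero, Fin.cons_succ]
    have e : ∀ (n : ℤ) (u : Fin K → ℤ), Qf t (u l) n = Qf t n (u l) := fun n u => Qf_symm t _ _
    simp only [e]
    have := base l
    linarith
  · intro h
    simp only [Fin.cons_succ]
    have hll : l ≠ l' := fun e => h (by rw [e])
    have e : (fun n : ℤ => mnK K (fun _ => n + 1) (fun _ => H) (fun u => Qf t (u l) (u l'))) =
        fun n => mn (n + 1) H (fun z => mn (n + 1) H (fun w => Qf t z w)) := by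
      funext n
      exact marg2 hH (n + 1) K (fun z w => Qf t z w) l l' hll
    rw [e]
    have := pair_window (Q := Qf t) (fun _ _ => id1_nonneg _) (fun _ _ => id1_le_one _) (Qf_symm t) (Qf_self t) x hN hH
    linarith

theorem floor_ratio {ρ τ L : ℝ} (hρ0 : 0 < ρ) (hρ1 : ρ < 1) (hτ : 0 < τ) (hL : 0 ≤ L) :
    (⌊ρ * τ * L⌋₊ : ℕ) ≤ (⌊τ * L⌋₊ : ℕ) ∧ |((⌊ρ * τ * L⌋₊ : ℕ) : ℝ) - ρ * (⌊τ * L⌋₊ : ℕ)| ≤ 1 := by
  have h1 : ρ * τ * L ≤ τ * L := by
    have : 0 ≤ τ * L := by positivity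
    nlinarith
  refine ⟨Nat.floor_le_floor h1, ?_⟩
  have a1 := Nat.floor_le (show 0 ≤ ρ * τ * L by positivity)
  have a2 := Nat.lt_floor_add_one (ρ * τ * L)
  have a3 := Nat.floor_le (show 0 ≤ τ * L by positivity)
  have a4 := Nat.lt_floor_add_one (τ * L)
  rw [abs_le]
  constructor <;> nlinarith

/-- **The joint law for random points of a window.** -/
theorem window_law (hC : S_CONT) (hU : S_UNEQ) (K : ℕ) {θ τ : ℝ} (hθ : 0 < θ) (hθ1 : θ < 1) (hτθ : θ < τ * th0) (hτ1 : τ * th0 < 1)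
    {ε : ℝ} (hε : 0 < ε) : ∀ᶠ N : ℕ in atTop, tN (θ / th0) N ≤ tN τ N ∧ ∀ (x : ℤ)
      (f : (Fin (K + 1) → ℝ) → (Fin (K + 1) → Fin (K + 1) → Prop) → ℝ), Adm f →
      |wm K N (HN θ N) x (obT f (tN τ N)) -
        iw (cw (fW f (tN τ N : ℕ)) (tN τ N - tN (θ / th0) N)) (tN (θ / th0) N) (fun _ => 0)| ≤ ε := by
  have hth := th0_pos
  have hτ : 0 < τ := by
    by_contra hcon
    push Not at hcon
    have : τ * th0 ≤ 0 := mul_nonpos_of_nonpos_of_nonneg hcon hth.le
    linarith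
  obtain ⟨ρ, hρ⟩ : ∃ ρ, ρ = θ / (τ * th0) := ⟨_, rfl⟩
  have hρ0 : 0 < ρ := by rw [hρ]; positivity
  have hρ1 : ρ < 1 := by rw [hρ, div_lt_one (by positivity)]; exact hτθ
  have hρτ : ρ * τ = θ / th0 := by rw [hρ]; field_simp
  obtain ⟨δ, hδ⟩ : ∃ δ, δ = min (ρ / 2) ((1 - ρ) / 2) := ⟨_, rfl⟩
  have hδ0 : 0 < δ := by rw [hδ]; exact lt_min (by linarith) (by linarith)
  have hδ1 : δ ≤ ρ / 2 := by rw [hδ]; exact min_le_left _ _
  have hδ2 : δ ≤ (1 - ρ) / 2 := by rw [hδ]; exact min_le_right _ _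
  obtain ⟨η, hη, hcont⟩ := hC (K + 1) δ (ε / 4) hδ0 (by positivity)
  have hwd := t_WD (K + 1) δ (ε / 4) hδ0 (by positivity)
  obtain ⟨ε₁, hε₁⟩ : ∃ ε₁, ε₁ = min (min (ε / 8) (δ / 2)) (η / 4) := ⟨_, rfl⟩
  have hε₁0 : 0 < ε₁ := by rw [hε₁]; positivity
  have hε₁1 : ε₁ ≤ ε / 8 := by rw [hε₁]; exact (min_le_left _ _).trans (min_le_left _ _)
  have hε₁2 : ε₁ ≤ δ / 2 := by rw [hε₁]; exact (min_le_left _ _).trans (min_le_right _ _)
  have hε₁3 : ε₁ ≤ η / 4 := by rw [hε₁]; exact min_le_right _ _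
  obtain ⟨P, hP⟩ : ∃ P : ℝ, P = ε / (32 * ((K : ℝ) + 1) ^ 2) := ⟨_, rfl⟩
  have hP0 : 0 < P := by rw [hP]; positivity
  have hwin := WIN_all K θ τ hθ hθ1 hτθ hτ1 ε₁ hε₁0 0
  have hun := hU θ τ hθ hθ1 hτθ hτ1 P hP0
  have hlim := tN_tendsto hτ
  have hlimr : Tendsto (fun N : ℕ => (tN τ N : ℝ)) atTop atTop := tendsto_natCast_atTop_atTop.comp hlim
  have hH := Pool.Agent.J4H39.HN_tendsto hθ
  filter_upwards [hwin, hun, hlim.eventually hcont, hlim.eventually hwd, hlimr.eventually_ge_atTop (2 / δ + 4 / η + 1),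
    hH.eventually_ge_atTop 1, HN_le hθ1 hP0, eventually_ge_atTop 1] with N b1 b2 b3 b4 b5 b6 b7 b8
  obtain ⟨s, q, hsq, -, -, hrat, hmain⟩ := b1
  have hL : 0 ≤ Real.logb 2 (N : ℝ) := Real.logb_nonneg (by norm_num) (by exact_mod_cast b8)
  obtain ⟨f1, f2⟩ := floor_ratio hρ0 hρ1 hτ hL
  rw [hρτ] at f1 f2
  have e1 : tN (θ / th0) N = ⌊θ / th0 * Real.logb 2 (N : ℝ)⌋₊ := rfl
  have e2 : tN τ N = ⌊τ * Real.logb 2 (N : ℝ)⌋₊ := rfl
  rw [← e1, ← e2] at f1 f2
  refine ⟨f1, ?_⟩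
  obtain ⟨t, ht⟩ : ∃ t, t = tN τ N := ⟨_, rfl⟩
  obtain ⟨s', hs'⟩ : ∃ s', s' = tN (θ / th0) N := ⟨_, rfl⟩
  rw [← ht, ← hs'] at f1 f2
  rw [← ht] at b2 b3 b4 b5 hsq
  rw [← ht, ← hs']
  intro x f hf
  -- sizes
  have ht0 : (0 : ℝ) < t := by
    have : 0 < 2 / δ + 4 / η + 1 := by positivity
    linarith
  have hst : (s : ℝ) + q = t := by rw [hsq]; push_cast; ring
  rw [hst, ← hρ, abs_le] at hrat
  have r1 : (s : ℝ) ≤ (ρ + ε₁) * t := by
    have := hrat.2
    rw [sub_le_iff_le_add, div_le_iff₀ ht0] at this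
    linarith
  have r2 : (ρ - ε₁) * t ≤ (s : ℝ) := by
    have := hrat.1
    rw [neg_le_sub_iff_le_add, ← sub_le_iff_le_add, le_div_iff₀ ht0] at this
    exact this
  rw [abs_le] at f2
  have q1 : δ * t ≥ 2 := by
    have h1 : 2 / δ ≤ t := by
      have : 0 < 4 / η := by positivity
      linarith
    rw [div_le_iff₀ hδ0] at h1
    linarith
  have q2 : η * t ≥ 4 := by
    have h1 : 4 / η ≤ t := by
      have : 0 < 2 / δ := by positivity
      linarith
    rw [div_le_iff₀ hη] at h1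
    linarith
  have c1 : δ * t ≤ s := by nlinarith
  have c2 : δ * t ≤ s' := by nlinarith
  have c3 : δ * t ≤ q := by nlinarith
  have c4 : |(s : ℝ) - s'| ≤ η * t := by
    rw [abs_le]
    constructor <;> nlinarith
  -- the window
  have hN0 := b8
  have hE := isE_wm K b8 b6 x
  have k1 : |wm K N (HN θ N) x (obT f t) -
      wm K N (HN θ N) x (ob t (fun A p => f (fun i => (A i : ℝ) / √ (t : ℝ)) p) (fun _ => 0))| ≤ ε / 4 := by
    rw [← hE.sub]
    refine (hE.abs_le (fun v => obT_ob hf t v)).trans ?_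
    rw [hE.smul, hE.sum]
    have h1 : ∀ i ∈ (univ : Finset (Fin (K + 1))), wm K N (HN θ N) x (fun v => ∑ j, Qf t (v i) (v j)) ≤ ((K + 1 : ℕ) : ℝ) * (4 * P) := by
      intro i _
      rw [hE.sum]
      refine (sum_le_sum fun j _ => wm_pair K b8 b6 x t (b2 x) b7 i j).trans (le_of_eq ?_)
      rw [sum_const, card_univ, Fintype.card_fin, nsmul_eq_mul]
    have h2 := sum_le_sum h1
    rw [sum_const, card_univ, Fintype.card_fin, nsmul_eq_mul] at h2
    have h3 : 2 * (((K + 1 : ℕ) : ℝ) * (((K + 1 : ℕ) : ℝ) * (4 * P))) = ε / 4 := by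
      rw [hP]; push_cast; field_simp; norm_num
    linarith
  have k2 : |wm K N (HN θ N) x (ob t (fun A p => f (fun i => (A i : ℝ) / √ (t : ℝ)) p) (fun _ => 0)) -
      exK s (K + 1) (fun y => Wd q (fun A p => f (fun i => (A i : ℝ) / √ (t : ℝ)) p) (fun i => od s (y i)))| ≤ ε / 4 := by
    have h1 := hmain x (fun A p => (1 + f (fun i => (A i : ℝ) / √ (t : ℝ)) p) / 2)
      (fun A p => by have := abs_le.1 (hf.1 (fun i => (A i : ℝ) / √ (t : ℝ)) p); linarith)
      (fun A p => by have := abs_le.1 (hf.1 (fun i => (A i : ℝ) / √ (t : ℝ)) p); linarith)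
    have hqs : q + s = t := hsq.symm
    rw [hqs] at h1
    have e3 : mn x N (fun n => mnK K (fun _ => n + 1) (fun _ => HN θ N)
        (fun u => ob t (fun A p => (1 + f (fun i => (A i : ℝ) / √ (t : ℝ)) p) / 2) (fun _ => 0) (Fin.cons n u : Fin (K + 1) → ℤ))) =
        (1 + wm K N (HN θ N) x (ob t (fun A p => f (fun i => (A i : ℝ) / √ (t : ℝ)) p) (fun _ => 0))) / 2 := by
      have : (fun v : Fin (K + 1) → ℤ => ob t (fun A p => (1 + f (fun i => (A i : ℝ) / √ (t : ℝ)) p) / 2) (fun _ => 0) v) =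
          fun v => (1 / 2) * (1 + ob t (fun A p => f (fun i => (A i : ℝ) / √ (t : ℝ)) p) (fun _ => 0) v) := by
        funext v
        unfold ob
        ring
      show wm K N (HN θ N) x (fun v => ob t (fun A p => (1 + f (fun i => (A i : ℝ) / √ (t : ℝ)) p) / 2) (fun _ => 0) v) = _
      rw [this, hE.smul, hE.add, hE.one]
      ring
    have e4 : exK s (K + 1) (fun y => Wd q (fun A p => (1 + f (fun i => (A i : ℝ) / √ (t : ℝ)) p) / 2) (fun i => od s (y i))) =
        (1 + exK s (K + 1) (fun y => Wd q (fun A p => f (fun i => (A i : ℝ) / √ (t : ℝ)) p) (fun i => od s (y i)))) / 2 := by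
      have e5 : ∀ o : Fin (K + 1) → ℕ, Wd q (fun A p => (1 + f (fun i => (A i : ℝ) / √ (t : ℝ)) p) / 2) o =
          (1 / 2) * (1 + Wd q (fun A p => f (fun i => (A i : ℝ) / √ (t : ℝ)) p) o) := by
        intro o
        unfold Wd
        have : (fun m => ob q (fun A p => (1 + f (fun i => (A i : ℝ) / √ (t : ℝ)) p) / 2) (fun i => (o i : ℤ)) (fun i => 3 ^ o i * m)) =
            fun m => (1 / 2) * (1 + ob q (fun A p => f (fun i => (A i : ℝ) / √ (t : ℝ)) p) (fun i => (o i : ℤ)) (fun i => 3 ^ o i * m)) := by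
          funext m
          unfold ob
          ring
        rw [this, (isE_ex q).smul, (isE_ex q).add, (isE_ex q).one]
      have hc : ∀ g : (Fin (K + 1) → ℤ) → (Fin (K + 1) → Fin (K + 1) → Prop) → ℝ,
          exK s (K + 1) (fun y => Wd q g (fun i => od s (y i))) = iw (fun u => Wd q g (fun i => (u i).toNat)) s (fun _ => 0) := by
        intro g
        rw [← t_EXK (K + 1) s (fun u => Wd q g (fun i => (u i).toNat))]
        simp only [Int.toNat_natCast]
      rw [hc, hc]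
      simp only [e5]
      rw [iw_smul, iw_add, (isE_iw s (fun _ => 0)).one]
      ring
    rw [e3, e4] at h1
    have e6 : (1 + wm K N (HN θ N) x (ob t (fun A p => f (fun i => (A i : ℝ) / √ (t : ℝ)) p) (fun _ => 0))) / 2 -
        (1 + exK s (K + 1) (fun y => Wd q (fun A p => f (fun i => (A i : ℝ) / √ (t : ℝ)) p) (fun i => od s (y i)))) / 2 =
        (wm K N (HN θ N) x (ob t (fun A p => f (fun i => (A i : ℝ) / √ (t : ℝ)) p) (fun _ => 0)) -
          exK s (K + 1) (fun y => Wd q (fun A p => f (fun i => (A i : ℝ) / √ (t : ℝ)) p) (fun i => od s (y i)))) / 2 := by ring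
    rw [e6, abs_div, abs_two] at h1
    linarith
  have k3 := b4 s q (by omega) c3 f hf
  have k4 := b3 s s' q (t - s') (by omega) (by omega) c1 c2 c4 (fW f t) (fun u => hf.1 _ _)
  have t1 := abs_sub_le (wm K N (HN θ N) x (obT f t))
    (wm K N (HN θ N) x (ob t (fun A p => f (fun i => (A i : ℝ) / √ (t : ℝ)) p) (fun _ => 0)))
    (exK s (K + 1) (fun y => Wd q (fun A p => f (fun i => (A i : ℝ) / √ (t : ℝ)) p) (fun i => od s (y i))))
  have t2 := abs_sub_le (wm K N (HN θ N) x (obT f t))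
    (exK s (K + 1) (fun y => Wd q (fun A p => f (fun i => (A i : ℝ) / √ (t : ℝ)) p) (fun i => od s (y i))))
    (iw (cw (fW f t) q) s (fun _ => 0))
  have t3 := abs_sub_le (wm K N (HN θ N) x (obT f t)) (iw (cw (fW f t) q) s (fun _ => 0))
    (iw (cw (fW f t) (t - s')) s' (fun _ => 0))
  linarith

end Pool.Agent.J4H26.KT
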